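import Pool.Agent.Lib.P2baL.MkG

/-!
# Module P2baL.BipT: testing the bipartition

`bip_iff`: the given graph has a proper 2-colouring with the colours of the core if and only if in
the double cover with the additional edges (stepD) no (a, 0) is joined to (a, 1). The set of the
vertices joined to 2 a is `tabP (rule a) (2 n) (2 n)` with rule T z := z = 2 a ∨ ∃ u < 2 n, T u ∧
stepD u z.
PROOF. Write S = 2 g.n, Re a z := tabP (ruleD a) S S z.
(⇒) Let c be given. For all z with Re a z: (c' z = (c (z/2) xor (z % 2 = 1))) is equal to c a, by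
`tabP_induct` (P z := (c (z / 2) ↔ c a iff z % 2 = 0)): z = 2 a clear; T u, stepD u z: the parities
differ and c (u/2) ≠ c (z/2) (GN: property of c; core vertices v, w of different classes: c v =
cl (en v) ≠ cl (en w) = c w). So Re a (2 a + 1) is impossible.
(⇐) Suppose ¬ Re a (2 a + 1) for all a < g.n. Facts: (i) Re a (2 a) for a < g.n; (ii) Re a u,
stepD u z, z < S (u < S by `tabP_lt`) imply Re a z (`tabP_fix`); (iii) `Re` is symmetric and
transitive in the following sense: define W a z := Relation.ReflTransGen (restricted steps) ..., it is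
easiest to prove: Re a z ↔ ReflTransGen (fun u z => stepD u z ∧ u < S ∧ z < S) (2 a) z for a < g.n
(→ by `tabP_induct`, ← by induction with (i), (ii)); stepD is symmetric (GN is), so this relation is
symmetric, and flipping both parities (2 a + ε ↦ 2 a + 1 - ε) preserves it. For a < g.n let rep a be
a fixed vertex of the class of a under the equivalence relation a ~ b :⇔ (2 a) is joined to (2 b) or
to (2 b + 1) (an equivalence relation on the a < g.n by flipping; use Quotient.out or
`Classical.choose` of the least number), c a := (2 rep a joined to 2 a). If GN g a b, or a, b < n0 are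
core vertices of different classes: rep a = rep b; if c a and c b were both true, then 2 rep ~ 2 a ~
(step) 2 b + 1 and 2 rep ~ 2 b, so 2 b ~ 2 b + 1: contradiction; both false: 2 rep is joined to
2 a + 1 and to 2 b + 1 (as it is joined to one of 2 a, 2 a + 1), and 2 a + 1 ~ 2 b by a step, so
2 b ~ 2 b + 1 again. So c is proper for GN, and c v ≠ c w for core vertices of different classes.
There are core vertices v0, w0 of different classes (`hedge`). If c v0 = cl (en v0) then
c w = cl (en w) for all core vertices w (of the class of w0: c w ≠ c v0; of the class of v0: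
c w ≠ c w0 ≠ c v0), otherwise c w = not cl (en w) for all w, and replace c by its negation.
Alternatively take the paths of even and odd length directly. n0 ≤ g.n is used for v, w < g.n.
-/

set_option autoImplicit false

namespace Pool.Agent.Lib.P2baL

open Pool.Agent.Lib.P2ba8ab Pool.Agent.Lib.P2baR Pool.Agent.Lib.PolyTime
open Pool.Agent.Lib.Pa7c826 Pool.Agent.Lib.P8e91ed.PT Pool.Agent.P99b9fe

/-- the rule of the search in the double cover -/
def ruleD {V : Type} {ht : V → ℕ} {n0 : ℕ} (cl : V → Bool) (en : Fin n0 ≃ Core ht) (g : Gr)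
    (a : ℕ) (T : ℕ → Prop) (z : ℕ) : Prop :=
  z = 2 * a ∨ ∃ u < 2 * g.n, T u ∧ stepD cl en g u z

namespace BipTAux

theorem gnLt {g : Gr} {a b : ℕ} (h : GN g a b) : a < g.n ∧ b < g.n := by
  have h' : adjN g a b = true := h
  simp only [adjN] at h'
  by_contra hc
  simp [hc] at h'

theorem gnSymm {g : Gr} {a b : ℕ} (h : GN g a b) : GN g b a := by
  have h' : adjN g a b = true := h
  have hl := gnLt h
  have h1 : g.G.Adj ⟨a, hl.1⟩ ⟨b, hl.2⟩ := (adjN_fin g ⟨a, hl.1⟩ ⟨b, hl.2⟩).1 h'
  exact (adjN_fin g ⟨b, hl.2⟩ ⟨a, hl.1⟩).2 h1.symm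

variable {V : Type} {ht : V → ℕ} {n0 : ℕ}

/-- steps below `2 g.n` -/
def St (cl : V → Bool) (en : Fin n0 ≃ Core ht) (g : Gr) (u z : ℕ) : Prop :=
  stepD cl en g u z ∧ u < 2 * g.n ∧ z < 2 * g.n

theorem st_symm {cl : V → Bool} {en : Fin n0 ≃ Core ht} {g : Gr} {u z : ℕ}
    (h : St cl en g u z) : St cl en g z u := by
  obtain ⟨⟨h1, h2⟩, h3, h4⟩ := h
  refine ⟨⟨fun he => h1 he.symm, ?_⟩, h4, h3⟩
  rcases h2 with h2 | ⟨v, w, hv, hw, hc⟩
  · exact Or.inl (gnSymm h2)
  · exact Or.inr ⟨w, v, hw, hv, fun he => hc he.symm⟩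

/-- the other vertex above the same vertex -/
def fl (z : ℕ) : ℕ := if z % 2 = 0 then z + 1 else z - 1

theorem fl_div (z : ℕ) : fl z / 2 = z / 2 := by
  unfold fl; split_ifs <;> omega

theorem fl_mod (z : ℕ) : fl z % 2 = 1 - z % 2 := by
  unfold fl; split_ifs <;> omega

theorem fl_lt {z n : ℕ} (h : z < 2 * n) : fl z < 2 * n := by
  unfold fl; split_ifs <;> omega

theorem fl_even (a : ℕ) : fl (2 * a) = 2 * a + 1 := by
  unfold fl; split_ifs <;> omega

theorem fl_odd (a : ℕ) : fl (2 * a + 1) = 2 * a := by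
  unfold fl; split_ifs <;> omega

theorem st_fl {cl : V → Bool} {en : Fin n0 ≃ Core ht} {g : Gr} {u z : ℕ}
    (h : St cl en g u z) : St cl en g (fl u) (fl z) := by
  obtain ⟨⟨h1, h2⟩, h3, h4⟩ := h
  refine ⟨⟨?_, ?_⟩, fl_lt h3, fl_lt h4⟩
  · rw [fl_mod, fl_mod]; omega
  · rw [fl_div, fl_div]; exact h2

/-- joined by a walk -/
def J (cl : V → Bool) (en : Fin n0 ≃ Core ht) (g : Gr) : ℕ → ℕ → Prop :=
  Relation.ReflTransGen (St cl en g)

theorem j_symm {cl : V → Bool} {en : Fin n0 ≃ Core ht} {g : Gr} {u z : ℕ}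
    (h : J cl en g u z) : J cl en g z u := by
  unfold J at h ⊢
  induction h with
  | refl => exact Relation.ReflTransGen.refl
  | tail _ h2 ih => exact Relation.ReflTransGen.head (st_symm h2) ih

theorem j_fl {cl : V → Bool} {en : Fin n0 ≃ Core ht} {g : Gr} {u z : ℕ}
    (h : J cl en g u z) : J cl en g (fl u) (fl z) := by
  unfold J at h ⊢
  induction h with
  | refl => exact Relation.ReflTransGen.refl
  | tail _ h2 ih => exact Relation.ReflTransGen.tail ih (st_fl h2)

theorem j_trans {cl : V → Bool} {en : Fin n0 ≃ Core ht} {g : Gr} {u y z : ℕ}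
    (h : J cl en g u y) (h' : J cl en g y z) : J cl en g u z :=
  Relation.ReflTransGen.trans h h'

theorem j_tab {cl : V → Bool} {en : Fin n0 ≃ Core ht} {g : Gr} {a : ℕ} (ha : a < g.n) {z : ℕ}
    (h : J cl en g (2 * a) z) : tabP (ruleD cl en g a) (2 * g.n) (2 * g.n) z := by
  unfold J at h
  induction h with
  | refl => exact tabP_fix (by omega) (Or.inl rfl)
  | tail _ h2 ih =>
    exact tabP_fix h2.2.2 (Or.inr ⟨_, h2.2.1, ih, h2.1⟩)

/-- the same component, up to flipping -/
def E (cl : V → Bool) (en : Fin n0 ≃ Core ht) (g : Gr) (a b : ℕ) : Prop :=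
  J cl en g (2 * a) (2 * b) ∨ J cl en g (2 * a) (2 * b + 1)

theorem j_eo {cl : V → Bool} {en : Fin n0 ≃ Core ht} {g : Gr} {a b : ℕ}
    (h : J cl en g (2 * a) (2 * b + 1)) : J cl en g (2 * a + 1) (2 * b) := by
  have := j_fl h
  rwa [fl_even, fl_odd] at this

theorem j_oe {cl : V → Bool} {en : Fin n0 ≃ Core ht} {g : Gr} {a b : ℕ}
    (h : J cl en g (2 * a + 1) (2 * b)) : J cl en g (2 * a) (2 * b + 1) := by
  have := j_fl h
  rwa [fl_even, fl_odd] at this

theorem j_oo {cl : V → Bool} {en : Fin n0 ≃ Core ht} {g : Gr} {a b : ℕ}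
    (h : J cl en g (2 * a) (2 * b)) : J cl en g (2 * a + 1) (2 * b + 1) := by
  have := j_fl h
  rwa [fl_even, fl_even] at this

theorem e_equiv (cl : V → Bool) (en : Fin n0 ≃ Core ht) (g : Gr) : Equivalence (E cl en g) where
  refl a := Or.inl Relation.ReflTransGen.refl
  symm := by
    rintro a b (h | h)
    · exact Or.inl (j_symm h)
    · exact Or.inr (j_oe (j_symm h))
  trans := by
    rintro a b c (h | h) (h' | h')
    · exact Or.inl (j_trans h h')
    · exact Or.inr (j_trans h h')
    · exact Or.inr (j_trans h (j_oo h'))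
    · exact Or.inl (j_trans h (j_eo h'))

/-- a representative of the component -/
noncomputable def rep (cl : V → Bool) (en : Fin n0 ≃ Core ht) (g : Gr) (a : ℕ) : ℕ :=
  (Quotient.mk (⟨E cl en g, e_equiv cl en g⟩ : Setoid ℕ) a).out

theorem rep_e (cl : V → Bool) (en : Fin n0 ≃ Core ht) (g : Gr) (a : ℕ) :
    E cl en g (rep cl en g a) a :=
  Quotient.mk_out (s := (⟨E cl en g, e_equiv cl en g⟩ : Setoid ℕ)) a

theorem rep_eq {cl : V → Bool} {en : Fin n0 ≃ Core ht} {g : Gr} {a b : ℕ}
    (h : E cl en g a b) : rep cl en g a = rep cl en g b := by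
  unfold rep
  have : (Quotient.mk (⟨E cl en g, e_equiv cl en g⟩ : Setoid ℕ) a) =
      Quotient.mk (⟨E cl en g, e_equiv cl en g⟩ : Setoid ℕ) b :=
    Quotient.sound (s := (⟨E cl en g, e_equiv cl en g⟩ : Setoid ℕ)) h
  rw [this]

open Classical in
/-- the colouring -/
noncomputable def c0 (cl : V → Bool) (en : Fin n0 ≃ Core ht) (g : Gr) (a : ℕ) : Bool :=
  decide (J cl en g (2 * rep cl en g a) (2 * a))

theorem c0_ne {cl : V → Bool} {en : Fin n0 ≃ Core ht} {g : Gr}
    (hno : ∀ a < g.n, ¬ J cl en g (2 * a) (2 * a + 1)) {a b : ℕ} (ha : a < g.n) (hb : b < g.n)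
    (hs : St cl en g (2 * a) (2 * b + 1)) : c0 cl en g a ≠ c0 cl en g b := by
  have hab : J cl en g (2 * a) (2 * b + 1) := Relation.ReflTransGen.single hs
  have hr : rep cl en g a = rep cl en g b := rep_eq (Or.inr hab)
  intro hc
  unfold c0 at hc
  rw [decide_eq_decide] at hc
  by_cases h : J cl en g (2 * rep cl en g a) (2 * a)
  · have h1 := hc.1 h
    rw [← hr] at h1
    have h2 := j_trans h hab
    exact hno b hb (j_trans (j_symm h1) h2)
  · have h1 : ¬ J cl en g (2 * rep cl en g b) (2 * b) := fun hh => h (hc.2 hh)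
    have h2 : J cl en g (2 * rep cl en g a) (2 * a + 1) := by
      rcases rep_e cl en g a with h3 | h3
      · exact absurd h3 h
      · exact h3
    have h3 : J cl en g (2 * a + 1) (2 * b) := j_eo hab
    apply h1
    rw [← hr]
    exact j_trans h2 h3

end BipTAux

open BipTAux

theorem bip_iff {V : Type} {ht : V → ℕ} {n0 : ℕ} (cl : V → Bool) (en : Fin n0 ≃ Core ht)
    (hedge : ∃ v w : Fin n0, cl (en v).1 ≠ cl (en w).1) (g : Gr) (h : n0 ≤ g.n) :
    BipOK cl en g ↔ ∀ a < g.n, ¬ tabP (ruleD cl en g a) (2 * g.n) (2 * g.n) (2 * a + 1) := by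
  constructor
  · rintro ⟨c, hc1, hc2⟩ a ha hre
    have key : ∀ z, tabP (ruleD cl en g a) (2 * g.n) (2 * g.n) z → (c (z / 2) = c a ↔ z % 2 = 0) := by
      refine tabP_induct (fun T hT z hz hR => ?_) (2 * g.n)
      rcases hR with hR | ⟨u, hu, hTu, hpar, hst⟩
      · subst hR
        have h1 : 2 * a / 2 = a := by omega
        have h2 : 2 * a % 2 = 0 := by omega
        rw [h1, h2]
        simp
      · have hu' := hT u hTu
        have hne : c (u / 2) ≠ c (z / 2) := by
          rcases hst with hst | ⟨v, w, hv, hw, hcl⟩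
          · exact hc1 _ _ hst
          · rw [hv, hw, hc2, hc2]
            exact hcl
        rcases Nat.mod_two_eq_zero_or_one u with h0 | h0
        · have h1 : z % 2 = 1 := by omega
          have h2 : c (u / 2) = c a := hu'.2 h0
          constructor
          · intro h3
            exact absurd (h2.trans h3.symm) hne
          · intro h3
            omega
        · have h1 : z % 2 = 0 := by omega
          have h2 : c (u / 2) ≠ c a := fun hh => by
            have := hu'.1 hh
            omega
          refine ⟨fun _ => h1, fun _ => ?_⟩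
          cases h4 : c (z / 2) <;> cases h5 : c (u / 2) <;> cases h6 : c a <;> simp_all
    have h1 := (key _ hre)
    have h2 : (2 * a + 1) / 2 = a := by omega
    have h3 : (2 * a + 1) % 2 = 1 := by omega
    rw [h2, h3] at h1
    simp at h1
  · intro hno
    have hno' : ∀ a < g.n, ¬ J cl en g (2 * a) (2 * a + 1) :=
      fun a ha hj => hno a ha (j_tab ha hj)
    have hst : ∀ a b, a < g.n → b < g.n → (GN g a b ∨ ∃ v w : Fin n0, a = v ∧ b = w ∧
        cl (en v).1 ≠ cl (en w).1) → St cl en g (2 * a) (2 * b + 1) := by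
      intro a b ha hb hh
      refine ⟨⟨by omega, ?_⟩, by omega, by omega⟩
      have h1 : 2 * a / 2 = a := by omega
      have h2 : (2 * b + 1) / 2 = b := by omega
      rw [h1, h2]
      exact hh
    have hgn : ∀ a b, GN g a b → c0 cl en g a ≠ c0 cl en g b := fun a b hab =>
      c0_ne hno' (gnLt hab).1 (gnLt hab).2 (hst a b (gnLt hab).1 (gnLt hab).2 (Or.inl hab))
    have hco : ∀ v w : Fin n0, cl (en v).1 ≠ cl (en w).1 →
        c0 cl en g (v : ℕ) ≠ c0 cl en g (w : ℕ) := by
      intro v w hvw
      have hv : (v : ℕ) < g.n := lt_of_lt_of_le v.2 h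
      have hw : (w : ℕ) < g.n := lt_of_lt_of_le w.2 h
      exact c0_ne hno' hv hw (hst _ _ hv hw (Or.inr ⟨v, w, rfl, rfl, hvw⟩))
    obtain ⟨v0, w0, h0⟩ := hedge
    have h00 := hco v0 w0 h0
    by_cases hv0 : c0 cl en g (v0 : ℕ) = cl (en v0).1
    · refine ⟨c0 cl en g, hgn, fun i => ?_⟩
      by_cases hi : cl (en i).1 = cl (en v0).1
      · have h1 := hco i w0 (by rw [hi]; exact h0)
        revert h1 h00 hv0 hi
        generalize c0 cl en g (i : ℕ) = x1
        generalize c0 cl en g (v0 : ℕ) = x2
        generalize c0 cl en g (w0 : ℕ) = x3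
        generalize cl (en i).1 = y1
        generalize cl (en v0).1 = y2
        revert x1 x2 x3 y1 y2
        decide
      · have h1 := hco i v0 hi
        revert h1 hv0 hi
        generalize c0 cl en g (i : ℕ) = x1
        generalize c0 cl en g (v0 : ℕ) = x2
        generalize cl (en i).1 = y1
        generalize cl (en v0).1 = y2
        revert x1 x2 y1 y2
        decide
    · refine ⟨fun a => !(c0 cl en g a), fun a b hab => ?_, fun i => ?_⟩
      · have h1 := hgn a b hab
        intro h2
        exact h1 (by simpa using h2)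
      · show (!(c0 cl en g (i : ℕ))) = _
        by_cases hi : cl (en i).1 = cl (en v0).1
        · have h1 := hco i w0 (by rw [hi]; exact h0)
          revert h1 h00 hv0 hi
          generalize c0 cl en g (i : ℕ) = x1
          generalize c0 cl en g (v0 : ℕ) = x2
          generalize c0 cl en g (w0 : ℕ) = x3
          generalize cl (en i).1 = y1
          generalize cl (en v0).1 = y2
          revert x1 x2 x3 y1 y2
          decide
        · have h1 := hco i v0 hi
          revert h1 hv0 hi
          generalize c0 cl en g (i : ℕ) = x1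
          generalize c0 cl en g (v0 : ℕ) = x2
          generalize cl (en i).1 = y1
          generalize cl (en v0).1 = y2
          revert x1 x2 y1 y2
          decide

end Pool.Agent.Lib.P2baL
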