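import Pool.Agent.Lib.P2baL.Forest

/-!
# Module P2baL.Compl: a retraction gives a surjective homomorphism (loops allowed)

As in `Lib/P2baR/ComplR.lean`; the classes are corrected beforehand by `fix_classes`.
-/

set_option autoImplicit false
set_option linter.unusedSectionVars false

namespace Pool.Agent.Lib.P2baL

open Pool.Agent.Lib.P2ba8ab Pool.Agent.Lib.P2baR

/-- a retraction can be changed to one which respects given classes -/
theorem fix_classes {V : Type} {H : V → V → Prop} {par : V → V} {ht : V → ℕ}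
    {cl : V → Bool} {P : Type} (T : TreesL H par ht) (hcls : ∀ a b, H a b → cl a ≠ cl b)
    (v0 : V) (hv0 : ht v0 = 0) (E : P → P → Prop)
    (clP : P → Bool) (ι : Core ht → P) (hcl : ∀ v, clP (ι v) = cl v.1)
    (hE : ∀ p q, E p q → clP p ≠ clP q) (r : P → V) (h1 : ∀ p, ht (r p) = 0)
    (h2 : ∀ p q, E p q → H (r p) (r q)) (h3 : ∀ v, r (ι v) = v.1) :
    ∃ r' : P → V, (∀ p, ht (r' p) = 0) ∧ (∀ p q, E p q → H (r' p) (r' q)) ∧
      (∀ v, r' (ι v) = v.1) ∧ ∀ p, cl (r' p) = clP p := by
  classical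
  obtain ⟨u, c, -, -, -, hu0, -, hvu, -⟩ := T.deg v0 hv0
  have hne : cl v0 ≠ cl u := hcls v0 u hvu
  have hsym := T.symm
  obtain ⟨sg, hsgc, hsg0, hsga⟩ : ∃ sg : Bool → V, (∀ b, cl (sg b) = b) ∧ (∀ b, ht (sg b) = 0) ∧
      ∀ b b', b ≠ b' → H (sg b) (sg b') := by
    refine ⟨fun b => if b = cl v0 then v0 else u, ?_, ?_, ?_⟩
    · intro b
      by_cases hb : b = cl v0
      · simp [hb]
      · simp only [hb, if_false]
        cases b <;> cases h1 : cl v0 <;> cases h2 : cl u <;> simp_all
    · intro b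
      by_cases hb : b = cl v0
      · simp only [hb, if_true]; exact hv0
      · simp only [hb, if_false]; exact hu0
    · intro b b' hbb
      by_cases hb : b = cl v0
      · have hb' : b' ≠ cl v0 := fun h => hbb (hb.trans h.symm)
        simp only [hb, hb', if_true, if_false]
        exact hvu
      · have hb' : b' = cl v0 := by
          cases b <;> cases b' <;> cases h1 : cl v0 <;> simp_all
        simp only [hb, hb', if_true, if_false]
        exact hsym _ _ hvu
  obtain ⟨r', hr'⟩ : ∃ r' : P → V, ∀ p, r' p = if cl (r p) = clP p then r p else sg (clP p) :=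
    ⟨_, fun _ => rfl⟩
  have hrcl : ∀ p, cl (r' p) = clP p := by
    intro p
    rw [hr']
    by_cases h : cl (r p) = clP p
    · rw [if_pos h]; exact h
    · rw [if_neg h]; exact hsgc _
  have hr0 : ∀ p, ht (r' p) = 0 := by
    intro p
    rw [hr']
    by_cases h : cl (r p) = clP p
    · rw [if_pos h]; exact h1 p
    · rw [if_neg h]; exact hsg0 _
  have hrE : ∀ p q, E p q → H (r' p) (r' q) := by
    intro p q hpq
    have ha := hE p q hpq
    have hb := hcls _ _ (h2 p q hpq)
    rw [hr', hr']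
    by_cases h : cl (r p) = clP p
    · have h' : cl (r q) = clP q := by
        revert ha hb h
        generalize cl (r p) = x1
        generalize cl (r q) = x2
        generalize clP p = x3
        generalize clP q = x4
        revert x1 x2 x3 x4
        decide
      rw [if_pos h, if_pos h']
      exact h2 p q hpq
    · have h' : cl (r q) ≠ clP q := by
        revert ha hb h
        generalize cl (r p) = x1
        generalize cl (r q) = x2
        generalize clP p = x3
        generalize clP q = x4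
        revert x1 x2 x3 x4
        decide
      rw [if_neg h, if_neg h']
      exact hsga _ _ ha
  have hrι : ∀ v : Core ht, r' (ι v) = v.1 := by
    intro v
    rw [hr', if_pos (by rw [h3, hcl]), h3]
  exact ⟨r', hr0, hrE, hrι, hrcl⟩

theorem compl {V : Type} {H : V → V → Prop} {par : V → V} {ht : V → ℕ}
    {cl : V → Bool} {v0 : V} {len : Bool → ℕ} {e : ℕ} {P : Type}
    (D : DatL H par ht cl v0 len e) (E : P → P → Prop)
    (clP : P → Bool) (ι : Core ht → P) (r : P → V)
    (hwlk : ∀ p, Walk (HC H ht) (len (clP p)) (r p) v0)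
    (h2 : ∀ p q, E p q → H (r p) (r q)) (h3 : ∀ v, r (ι v) = v.1) :
    SurjHom (gr H par ht len e E clP ι (ι ⟨v0, D.v0c⟩)) H := by
  classical
  obtain ⟨u, c, -, -, -, hu0, -, hvu, -⟩ := D.trees.deg v0 D.v0c
  have hsym := D.trees.symm
  have hw : ∀ p, ∃ w : ℕ → V, w 0 = r p ∧ w (len (clP p)) = v0 ∧
      ∀ i, i < len (clP p) → H (w i) (w (i + 1)) := by
    intro p
    obtain ⟨w, hw0, hw1, hw2⟩ := (hwlk p).exists_fun
    exact ⟨w, hw0, hw1, fun i hi => (hw2 i hi).2.2⟩
  choose w hw0 hw1 hw2 using hw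
  obtain ⟨f, hfl, hfr⟩ : ∃ f : W ht P e → V, (∀ x, f (Sum.inl x) = x.1) ∧
      ∀ p (k : Fin e), f (Sum.inr (p, k)) = if k.1 < len (clP p) then w p k.1 else u :=
    ⟨Sum.elim (fun x => x.1) (fun q => if q.2.1 < len (clP q.1) then w q.1 q.2.1 else u),
      fun _ => rfl, fun _ _ => rfl⟩
  have hf0 : ∀ p (k : Fin e), k.1 = 0 → f (Sum.inr (p, k)) = r p := by
    intro p k hk
    have := D.len1 (clP p)
    rw [hfr, if_pos (by omega), hk, hw0]
  have hrel : ∀ a b, Rel H par ht len E clP ι (ι ⟨v0, D.v0c⟩) a b → H (f a) (f b) := by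
    rintro (x | ⟨p, k⟩) (y | ⟨q, l⟩) hab
    · rw [hfl, hfl]
      exact hab
    · obtain ⟨hk, v, hv1, hv2⟩ := hab
      rw [hfl, hf0 _ _ hk, ← hv1, h3, hv2]
      exact D.trees.adj_par _ x.2
    · exact hab.elim
    · rcases hab with ⟨hk, hl, hE' | ⟨v, v', hv1, hv2, hv3⟩⟩ | ⟨hq, hl, hlt⟩ | ⟨hl, hq, hk⟩
      · rw [hf0 _ _ hk, hf0 _ _ hl]
        exact h2 _ _ hE'
      · rw [hf0 _ _ hk, hf0 _ _ hl, ← hv1, ← hv2, h3, h3]
        exact hv3
      · subst hq
        rw [hfr, hfr, if_pos (by omega), if_pos hlt, hl]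
        exact hw2 _ _ (by omega)
      · have hq' : f (Sum.inr (q, l)) = v0 := by
          rw [hf0 _ _ hl, hq, h3]
        rw [hq', hfr]
        by_cases hlt : k.1 < len (clP p)
        · rw [if_pos hlt]
          have := hw2 p k.1 hlt
          rwa [show k.1 + 1 = len (clP p) by omega, hw1] at this
        · rw [if_neg hlt]
          exact hsym _ _ hvu
  refine ⟨f, ?_, ?_⟩
  · intro a b hab
    rw [gr, SimpleGraph.fromRel_adj] at hab
    rcases hab.2 with h | h
    · exact hrel _ _ h
    · exact hsym _ _ (hrel _ _ h)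
  · intro v
    rcases Nat.eq_zero_or_pos (ht v) with hv | hv
    · have he : 0 < e := lt_of_lt_of_le (D.len1 true) (D.lene true)
      refine ⟨Sum.inr (ι ⟨v, hv⟩, ⟨0, he⟩), ?_⟩
      rw [hf0 _ _ rfl, h3]
    · exact ⟨Sum.inl ⟨v, hv⟩, hfl _⟩

end Pool.Agent.Lib.P2baL
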