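import Pool.Agent.Lib.P2baR.TableR

/-!
# Surjective homomorphisms to graphs with tall pendant trees, loops allowed: definitions

The target graph `H` on `V` (loops allowed) is described by a height function `ht` and a parent
function `par`: the vertices of height 0 form the core, the neighbours of a vertex of positive
height are its parent, its children and perhaps the vertex itself.
-/

set_option autoImplicit false

namespace Pool.Agent.Lib.P2baL

open Pool.Agent.Lib.P2ba8ab Pool.Agent.Lib.P2baR

variable {V : Type}

/-- The vertices of positive height form pendant trees with parent function `par`; loops are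
allowed, but the parent of a vertex of positive height with a loop has a loop; every vertex of the
core (height 0) has two neighbours in the core, apart from itself. -/
structure TreesL (H : V → V → Prop) (par : V → V) (ht : V → ℕ) : Prop where
  symm : ∀ a b, H a b → H b a
  ht_par : ∀ a, 0 < ht a → ht a = ht (par a) + 1
  adj_par : ∀ a, 0 < ht a → H a (par a)
  tree : ∀ a b, H a b → 0 < ht a → b = a ∨ b = par a ∨ (0 < ht b ∧ a = par b)
  loop : ∀ a, 0 < ht a → H a a → H (par a) (par a)
  deg : ∀ a, ht a = 0 → ∃ b c, b ≠ a ∧ c ≠ a ∧ b ≠ c ∧ ht b = 0 ∧ ht c = 0 ∧ H a b ∧ H a c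

/-- the data of a target: a class function `cl`, a vertex `v0` of the core which is joined to every
vertex `a` of the core by a walk of length `len (cl a) ≤ e` in the core, and above every vertex of
the core a vertex of height at least `e` -/
structure DatL (H : V → V → Prop) (par : V → V) (ht : V → ℕ) (cl : V → Bool) (v0 : V)
    (len : Bool → ℕ) (e : ℕ) : Prop where
  trees : TreesL H par ht
  v0c : ht v0 = 0
  len1 : ∀ c, 1 ≤ len c
  lene : ∀ c, len c ≤ e
  walk : ∀ a, ht a = 0 → Walk (HC H ht) (len (cl a)) a v0
  tall : ∀ v, ht v = 0 → ∃ x, root par ht x = v ∧ e ≤ ht x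

theorem DatL.epos {H : V → V → Prop} {par : V → V} {ht : V → ℕ} {cl : V → Bool} {v0 : V}
    {len : Bool → ℕ} {e : ℕ} (D : DatL H par ht cl v0 len e) : 0 < e :=
  lt_of_lt_of_le (D.len1 true) (D.lene true)

/-- The retraction problem for the core: the instance is a graph whose first `n0` vertices stand for
the vertices of the core; the question is whether some homomorphism of the graph to the core maps
them to these vertices. -/
def Ret (H : V → V → Prop) (ht : V → ℕ) {n0 : ℕ} (en : Fin n0 ≃ Core ht) (g : Gr) : Prop :=
  ∃ h : n0 ≤ g.n, ∃ r : Fin g.n → V, (∀ a, ht (r a) = 0) ∧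
    (∀ a b, g.G.Adj a b → H (r a) (r b)) ∧ ∀ i : Fin n0, r (Fin.castLE h i) = (en i).1

/-- Polynomial-time decidability of a problem whose instances are finite simple graphs: its
characteristic function is computed by a Turing machine in polynomial time. -/
def InP (P : Gr → Prop) : Prop :=
  ∃ f : Gr → Bool, Nonempty (Turing.TM2ComputableInPolyTime (αΓ := Bool) (βΓ := Bool) Gr.encode
    (fun b : Bool => [b]) f) ∧ ∀ g, f g = true ↔ P g

/-- Polynomial-time many-one reducibility between problems whose instances are finite simple
graphs. -/
def Reduces (P Q : Gr → Prop) : Prop :=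
  ∃ f : Gr → Gr, Nonempty (Turing.TM2ComputableInPolyTime Gr.encode Gr.encode f) ∧
    ∀ g, P g ↔ Q (f g)

end Pool.Agent.Lib.P2baL
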