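import Pool.Agent.Lib.P2baL.Fold

/-!
# From surjective colouring to retraction: definitions

`s y` is the vertex of the given graph which is to be mapped to `y`. This gives lower bounds for the
images of the vertices near to the `s y`: if `q'` must be mapped to `z` or above `z` (in the pendant
trees) then its neighbours must be mapped to the parent of `z` or above it. The vertices with a lower
bound can be mapped to their greatest lower bound, and the remaining vertices to the core.
-/

set_option autoImplicit false

namespace Pool.Agent.Lib.P2baL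

open Pool.Agent.Lib.P2ba8ab Pool.Agent.Lib.P2baR

variable {V : Type}

/-- `y` lies on the way from `z` down to its root -/
def Le (par : V → V) (ht : V → ℕ) (y z : V) : Prop := ∃ i, i ≤ ht z ∧ par^[i] z = y

/-- `y` is a lower bound for the image of `q` -/
inductive Low (par : V → V) (ht : V → ℕ) {X : Type} (G : X → X → Prop) (s : V → X) :
    X → V → Prop
  | base (y : V) : Low par ht G s (s y) y
  | step (q q' : X) (z : V) : Low par ht G s q' z → 0 < ht z → G q' q → Low par ht G s q (par z)

/-- `y` is a highest lower bound for `q` -/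
def Top (par : V → V) (ht : V → ℕ) {X : Type} (G : X → X → Prop) (s : V → X) (q : X) (y : V) :
    Prop := Low par ht G s q y ∧ ∀ z, Low par ht G s q z → ht z ≤ ht y

/-- `q` has a lower bound -/
def Bd (par : V → V) (ht : V → ℕ) {X : Type} (G : X → X → Prop) (s : V → X) (q : X) : Prop :=
  ∃ y, Low par ht G s q y

/-- the lower bounds are consistent -/
def Good (H : V → V → Prop) (par : V → V) (ht : V → ℕ) {X : Type} (G : X → X → Prop)
    (s : V → X) : Prop :=
  (∀ x y, Low par ht G s (s x) y → Le par ht y x) ∧
  ∀ q q', G q q' → ∀ y y', Top par ht G s q y → Top par ht G s q' y' → H y y'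

/-- adjacency of numbers in a graph -/
def GN (g : Gr) (a b : ℕ) : Prop := adjN g a b = true

/-- the graph on `Fin N` given by a relation, made symmetric and without loops -/
def mkG (N : ℕ) (R : ℕ → ℕ → Prop) : Gr := ⟨N, SimpleGraph.fromRel (fun a b : Fin N => R a b)⟩

/-- The edges of the instance of the retraction problem: the vertices `i < n0` are the vertices of
the core, `n0 + q` is the vertex `q` of the given graph. Edges of the given graph between vertices
without lower bounds remain; a vertex without lower bounds is joined to the vertices of the core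
which are lower bounds of its neighbours. -/
def relI (par : V → V) (ht : V → ℕ) {n0 : ℕ} (en : Fin n0 ≃ Core ht) (g : Gr) (s : V → ℕ)
    (i j : ℕ) : Prop :=
  (n0 ≤ i ∧ n0 ≤ j ∧ GN g (i - n0) (j - n0) ∧ ¬ Bd par ht (GN g) s (i - n0) ∧
    ¬ Bd par ht (GN g) s (j - n0)) ∨
  (n0 ≤ i ∧ ¬ Bd par ht (GN g) s (i - n0) ∧ ∃ q < g.n, GN g (i - n0) q ∧
    ∃ v : Fin n0, j = v ∧ Low par ht (GN g) s q (en v).1)

open Classical in
/-- the instance of the retraction problem: the graph without vertices if the lower bounds are not
consistent -/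
noncomputable def inst (H : V → V → Prop) (par : V → V) (ht : V → ℕ) {n0 : ℕ}
    (en : Fin n0 ≃ Core ht) (g : Gr) (s : V → ℕ) : Gr :=
  if Good H par ht (GN g) s then mkG (n0 + g.n) (relI par ht en g s) else mkG 0 (fun _ _ => False)

/-! ### lower bounds found in k rounds -/

/-- lower bounds found in `k` rounds -/
def LowK (par : V → V) (ht : V → ℕ) (g : Gr) (s : V → ℕ) : ℕ → ℕ → V → Prop
  | 0, q, y => q = s y
  | k + 1, q, y => q = s y ∨ ∃ q' < g.n, ∃ z : V, (0 < ht z ∧ par z = y) ∧ GN g q' q ∧
      LowK par ht g s k q' z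

/-! ### bipartitions -/

/-- there is a proper 2-colouring of the given graph in which the vertices `i < n0` have the colours
of the vertices of the core -/
def BipOK {ht : V → ℕ} {n0 : ℕ} (cl : V → Bool) (en : Fin n0 ≃ Core ht) (g : Gr) : Prop :=
  ∃ c : ℕ → Bool, (∀ a b, GN g a b → c a ≠ c b) ∧ ∀ i : Fin n0, c i = cl (en i).1

/-- The edges of the double cover of the given graph: the vertices `i < n0` are the vertices of the
core, `n0 + 2 q + ε` is the vertex `(q, ε)`; the vertices `q < n0` of the given graph are replaced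
by the vertices of the core. -/
def relD {ht : V → ℕ} {n0 : ℕ} (cl : V → Bool) (en : Fin n0 ≃ Core ht) (g : Gr) (i j : ℕ) :
    Prop :=
  (i < n0 ∧ j < n0 ∧ GN g i j) ∨
  (n0 ≤ j ∧ n0 ≤ (j - n0) / 2 ∧ ∃ v : Fin n0, i = v ∧ GN g i ((j - n0) / 2) ∧
    ¬ (cl (en v).1 = true ↔ (j - n0) % 2 = 1)) ∨
  (n0 ≤ i ∧ n0 ≤ (i - n0) / 2 ∧ n0 ≤ j ∧ n0 ≤ (j - n0) / 2 ∧
    GN g ((i - n0) / 2) ((j - n0) / 2) ∧ (i - n0) % 2 = 0 ∧ (j - n0) % 2 = 1)

/-- steps in the double cover of the given graph, to which all edges between vertices of the core of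
different classes have been added; `2 a + ε` stands for `(a, ε)` -/
def stepD {ht : V → ℕ} {n0 : ℕ} (cl : V → Bool) (en : Fin n0 ≃ Core ht) (g : Gr) (u z : ℕ) :
    Prop :=
  u % 2 ≠ z % 2 ∧ (GN g (u / 2) (z / 2) ∨
    ∃ v w : Fin n0, u / 2 = v ∧ z / 2 = w ∧ cl (en v).1 ≠ cl (en w).1)

end Pool.Agent.Lib.P2baL
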