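import Pool.Agent.Lib.P2baL.Defs

/-!
# Module P2baL.Forest: heights, roots and crossing lemmas in the target graph (loops allowed)

The proofs are those of `Lib/P2baR/Forest.lean`.
-/

set_option autoImplicit false

namespace Pool.Agent.Lib.P2baL

open Pool.Agent.Lib.P2ba8ab Pool.Agent.Lib.P2baR

variable {V : Type} {H : V → V → Prop} {par : V → V} {ht : V → ℕ}

theorem ht_iter (T : TreesL H par ht) (a : V) (i : ℕ) (hi : i ≤ ht a) :
    ht (par^[i] a) = ht a - i := by
  induction i with
  | zero => simp
  | succ i ih =>
    have h1 := ih (by omega)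
    have h2 := T.ht_par (par^[i] a) (by omega)
    rw [Function.iterate_succ_apply']
    omega

theorem ht_root (T : TreesL H par ht) (a : V) : ht (root par ht a) = 0 := by
  unfold root
  rw [ht_iter T a (ht a) (le_refl _)]
  omega

theorem root_par (T : TreesL H par ht) (a : V) (ha : 0 < ht a) :
    root par ht (par a) = root par ht a := by
  unfold root
  rw [T.ht_par a ha, Function.iterate_succ_apply]

theorem root_core (a : V) (ha : ht a = 0) : root par ht a = a := by
  unfold root
  rw [ha]
  rfl

theorem anc_pos (T : TreesL H par ht) {z x : V} (h : Anc par ht z x) : 0 < ht z := by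
  obtain ⟨i, hi, rfl⟩ := h
  rw [ht_iter T x i hi.le]
  omega

theorem anc_posx {z x : V} (h : Anc par ht z x) : 0 < ht x := by
  obtain ⟨i, hi, _⟩ := h
  omega

theorem anc_root (T : TreesL H par ht) {z x : V} (h : Anc par ht z x) :
    root par ht z = root par ht x := by
  obtain ⟨i, hi, rfl⟩ := h
  have key : ∀ j, j ≤ ht x → P2baR.root par ht (par^[j] x) =
      P2baR.root par ht x := by
    intro j
    induction j with
    | zero => intro _; rfl
    | succ j ih =>
      intro hj
      rw [Function.iterate_succ_apply', root_par T _ (by rw [ht_iter T x j (by omega)]; omega)]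
      exact ih (by omega)
  exact key i hi.le

theorem anc_refl {x : V} (hx : 0 < ht x) : Anc par ht x x := ⟨0, hx, rfl⟩

theorem anc_of_par (T : TreesL H par ht) {z x : V} (hx : 0 < ht x) (h : Anc par ht z (par x)) :
    Anc par ht z x := by
  obtain ⟨i, hi, hz⟩ := h
  refine ⟨i + 1, ?_, ?_⟩
  · have := T.ht_par x hx
    omega
  · rw [Function.iterate_succ_apply]
    exact hz

theorem anc_par_closed (T : TreesL H par ht) {z x : V} (h : Anc par ht z x)
    (hz : 0 < ht (par z)) : Anc par ht (par z) x := by
  have hp := anc_pos T h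
  obtain ⟨i, hi, rfl⟩ := h
  refine ⟨i + 1, ?_, ?_⟩
  · have h1 := T.ht_par (par^[i] x) hp
    have h2 := ht_iter T x i hi.le
    omega
  · rw [Function.iterate_succ_apply']

theorem adj_anc (T : TreesL H par ht) {a b z : V} (h : H a b) (h1 : Anc par ht z a)
    (h2 : ¬ Anc par ht z b) : a = z := by
  by_contra hne
  have ha := anc_posx h1
  rcases T.tree a b h ha with hb | hb | ⟨hb, hab⟩
  · exact h2 (by rw [hb]; exact h1)
  · apply h2
    obtain ⟨i, hi, hz⟩ := h1
    rcases i with _ | i
    · exact absurd hz hne
    · refine ⟨i, ?_, ?_⟩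
      · have := T.ht_par a ha
        rw [hb]
        omega
      · rw [hb, ← Function.iterate_succ_apply]
        exact hz
  · apply h2
    apply anc_of_par T hb
    rw [← hab]
    exact h1

theorem adj_root (T : TreesL H par ht) {a b v : V} (h : H a b) (h1 : 0 < ht a)
    (h2 : root par ht a = v) (h3 : ¬ (0 < ht b ∧ root par ht b = v)) : b = v := by
  rcases T.tree a b h h1 with hb | hb | ⟨hb, hab⟩
  · exact absurd ⟨by rw [hb]; exact h1, by rw [hb]; exact h2⟩ h3
  · have h4 : root par ht b = v := by
      rw [hb, root_par T a h1, h2]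
    have h5 : ht b = 0 := by
      by_contra h6
      exact h3 ⟨by omega, h4⟩
    rw [root_core b h5] at h4
    exact h4
  · exfalso
    apply h3
    refine ⟨hb, ?_⟩
    rw [← root_par T b hb, ← hab]
    exact h2

theorem cross_anc (T : TreesL H par ht) {B : Set V} {n : ℕ} {x y z : V}
    (hw : Walk (In H B) n x y) (h1 : Anc par ht z x) (h2 : ¬ Anc par ht z y) : z ∈ B := by
  induction n generalizing x with
  | zero =>
    have : x = y := hw
    rw [this] at h1
    exact absurd h1 h2
  | succ n ih =>
    obtain ⟨w, hxw, hw'⟩ := hw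
    by_cases h : Anc par ht z w
    · exact ih hw' h
    · have := adj_anc T hxw.2.2 h1 h
      rw [← this]
      exact hxw.1

theorem cross_root (T : TreesL H par ht) {B : Set V} {n : ℕ} {x y v : V}
    (hw : Walk (In H B) n x y) (h0 : 0 < ht x) (h1 : root par ht x = v)
    (h2 : ¬ (0 < ht y ∧ root par ht y = v)) : v ∈ B := by
  induction n generalizing x with
  | zero =>
    have : x = y := hw
    rw [this] at h0 h1
    exact absurd ⟨h0, h1⟩ h2
  | succ n ih =>
    obtain ⟨w, hxw, hw'⟩ := hw
    by_cases h : 0 < ht w ∧ root par ht w = v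
    · exact ih hw' h.1 h.2
    · have := adj_root T hxw.2.2 h0 h1 h
      rw [← this]
      exact hxw.2.1

theorem card_anc [Fintype V] (T : TreesL H par ht) (x : V) :
    (St par ht {x}).card = ht x := by
  classical
  have h : St par ht {x} = (Finset.range (ht x)).image (fun i => par^[i] x) := by
    ext z
    simp only [St, Finset.mem_filter, Finset.mem_univ, true_and, Finset.mem_singleton,
      exists_eq_left, Finset.mem_image, Finset.mem_range]
    rfl
  rw [h, Finset.card_image_of_injOn, Finset.card_range]
  intro i hi j hj hij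
  have hi' : i < ht x := by simpa using hi
  have hj' : j < ht x := by simpa using hj
  have e1 := ht_iter T x i hi'.le
  have e2 := ht_iter T x j hj'.le
  have e3 : par^[i] x = par^[j] x := hij
  rw [e3] at e1
  omega

theorem nbrs (T : TreesL H par ht) {a b c : V} (ha : 0 < ht a) (hb : H a b) (hc : H a c)
    (hb' : ht b ≤ ht a) (hc' : ht c ≤ ht a) (hb1 : b ≠ a) (hc1 : c ≠ a) : b = c := by
  have key : ∀ d, H a d → ht d ≤ ht a → d ≠ a → d = par a := by
    intro d hd hd' hd1
    rcases T.tree a d hd ha with h | h | ⟨h, h'⟩
    · exact absurd h hd1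
    · exact h
    · exfalso
      have := T.ht_par d h
      rw [← h'] at this
      omega
  rw [key b hb hb' hb1, key c hc hc' hc1]

end Pool.Agent.Lib.P2baL
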