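import Pool.Agent.Lib.P2baL.Sound
import Pool.Agent.Lib.P2baL.Compl

/-! The retraction problem for the core reduces to surjective colouring (loops allowed). -/

set_option autoImplicit false

namespace Pool.Agent.Lib.P2baL

open Pool.Agent.Lib.P2ba8ab Pool.Agent.Lib.PolyTime Pool.Agent.Lib.Pa7c826 P2baC
open Pool.Agent.Lib.P2baR

variable {V : Type} {H : V → V → Prop} {par : V → V} {ht : V → ℕ} {cl : V → Bool} {v0 : V}
  {len : Bool → ℕ} {e : ℕ}

theorem emb_inj {n0 n : ℕ} (en : Fin n0 ≃ Core ht) (h : n0 ≤ n) :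
    Function.Injective (emb en h) := by
  intro v w hvw
  have h1 := Fin.castLE_injective h hvw
  exact en.symm.injective h1

theorem col_emb {n0 n : ℕ} (en : Fin n0 ≃ Core ht) (h : n0 ≤ n) (v : Core ht) :
    col cl en (emb en h v : Fin n) = cl v.1 := by
  unfold col emb
  have h1 : ((Fin.castLE h (en.symm v) : Fin n) : ℕ) < n0 := (en.symm v).2
  rw [dif_pos h1]
  have h2 : (⟨((Fin.castLE h (en.symm v) : Fin n) : ℕ), h1⟩ : Fin n0) = en.symm v := Fin.ext rfl
  rw [h2, Equiv.apply_symm_apply]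

theorem not_surj (D : DatL H par ht cl v0 len e) {n0 c0 : ℕ} (en : Fin n0 ≃ Core ht)
    (e0 : Fin c0 ≃ {x : V // 0 < ht x}) (g : Gr) (h : ¬ n0 ≤ g.n) :
    ¬ SurjHom (redR H par ht cl ⟨v0, D.v0c⟩ len e en e0 g).G H := by
  rw [TableRAux.redR_G' H par cl ⟨v0, D.v0c⟩ len e en e0 g h]
  rintro ⟨f, h1, h2⟩
  obtain ⟨x, hx, hxe⟩ := D.tall v0 D.v0c
  have hx0 : 0 < ht x := lt_of_lt_of_le D.epos hxe
  obtain ⟨b, -, hb, -, -, hb0, -, -, -⟩ := D.trees.deg v0 D.v0c
  obtain ⟨i, hi⟩ := h2 x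
  obtain ⟨j, hj⟩ := h2 b
  have hij : i ≠ j := by
    rintro rfl
    rw [hi] at hj
    rw [hj] at hx0
    omega
  have h3 := h1 i j (by simpa using hij)
  rw [hi, hj] at h3
  rcases D.trees.tree x b h3 hx0 with h4 | h4 | ⟨h4, -⟩
  · rw [h4] at hb0
    omega
  · have h5 := root_par D.trees x hx0
    rw [← h4, root_core b hb0, hx] at h5
    exact hb h5
  · omega

theorem fwd_bip [Finite V] (D : DatL H par ht cl v0 len e) (hcls : ∀ a b, H a b → cl a ≠ cl b)
    {n0 c0 : ℕ} (en : Fin n0 ≃ Core ht) (e0 : Fin c0 ≃ {x : V // 0 < ht x}) (g : Gr) :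
    RetCore H ht cl en g ↔ SurjHom (redR H par ht cl ⟨v0, D.v0c⟩ len e en e0 g).G H := by
  have := Fintype.ofFinite V
  by_cases h : n0 ≤ g.n
  · rw [surj_redR _ _ _ _ _ _ _ _ _ h]
    constructor
    · rintro ⟨_, h1, r, h2, h3, h4⟩
      have h5 : ∀ v, r (emb en h v) = v.1 := by
        intro v
        have h5 := h4 (en.symm v)
        rw [Equiv.apply_symm_apply] at h5
        exact h5
      obtain ⟨r', h6, h7, h8, h9⟩ := fix_classes D.trees hcls v0 D.v0c
        (fun a b : Fin g.n => g.G.Adj a b) (fun a => col cl en a) (emb en h)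
        (fun v => col_emb en h v) h1 r h2 h3 h5
      refine compl D (fun a b : Fin g.n => g.G.Adj a b) (fun a => col cl en a) (emb en h) r' ?_ h7 h8
      intro p
      rw [← h9 p]
      exact D.walk _ (h6 p)
    · intro hs
      have h1 := sound_cls D hcls (fun a b : Fin g.n => g.G.Adj a b)
        (fun a => g.G.loopless.irrefl a) (fun a => col cl en a) (emb en h)
        (fun v => col_emb en h v) hs
      obtain ⟨r, h2, h3, h4⟩ := sound D
        (fun φ _ v hv => absurd rfl (hcls _ _ hv)) (fun a b : Fin g.n => g.G.Adj a b)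
        (fun a => g.G.loopless.irrefl a) (fun a => col cl en a) (emb en h) (emb_inj en h)
        (fun v => col_emb en h v) hs
      refine ⟨h, h1, r, h2, h3, fun i => ?_⟩
      have h5 := h4 (en i)
      unfold emb at h5
      rw [Equiv.symm_apply_apply] at h5
      exact h5
  · constructor
    · rintro ⟨h', -⟩
      exact absurd h' h
    · intro hs
      exact absurd hs (not_surj D en e0 g h)

theorem fwd_loop [Finite V] (D : DatL H par ht cl v0 (fun _ => e) e)
    (hloop : ∀ φ : Core ht ≃ Core ht,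
      (∀ v w : Core ht, v ≠ w → H v.1 w.1 → H (φ v).1 (φ w).1) →
      ∀ v : Core ht, H v.1 v.1 → H (φ v).1 (φ v).1)
    {n0 c0 : ℕ} (en : Fin n0 ≃ Core ht) (e0 : Fin c0 ≃ {x : V // 0 < ht x}) (g : Gr) :
    Ret H ht en g ↔
      SurjHom (redR H par ht cl ⟨v0, D.v0c⟩ (fun _ => e) e en e0 g).G H := by
  have := Fintype.ofFinite V
  by_cases h : n0 ≤ g.n
  · rw [surj_redR _ _ _ _ _ _ _ _ _ h]
    constructor
    · rintro ⟨_, r, h2, h3, h4⟩
      have h5 : ∀ v, r (emb en h v) = v.1 := by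
        intro v
        have h5 := h4 (en.symm v)
        rw [Equiv.apply_symm_apply] at h5
        exact h5
      refine compl D (fun a b : Fin g.n => g.G.Adj a b) (fun a => col cl en a) (emb en h) r ?_ h3 h5
      intro p
      exact D.walk _ (h2 p)
    · intro hs
      obtain ⟨r, h2, h3, h4⟩ := sound D hloop (fun a b : Fin g.n => g.G.Adj a b)
        (fun a => g.G.loopless.irrefl a) (fun a => col cl en a) (emb en h) (emb_inj en h)
        (fun v => col_emb en h v) hs
      refine ⟨h, r, h2, h3, fun i => ?_⟩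
      have h5 := h4 (en i)
      unfold emb at h5
      rw [Equiv.symm_apply_apply] at h5
      exact h5
  · constructor
    · rintro ⟨h', -⟩
      exact absurd h' h
    · intro hs
      exact absurd hs (not_surj D en e0 g h)

/-- the reduction in polynomial time, given bipartitions -/
theorem reduces_bip [Finite V] (D : DatL H par ht cl v0 len e)
    (hcls : ∀ a b, H a b → cl a ≠ cl b) {n0 : ℕ} (en : Fin n0 ≃ Core ht) :
    ∃ f : Gr → Gr, PolyC (fun _ : Gr => True) [Gr.encode] (fun g => (f g).encode) ∧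
      ∀ g, RetCore H ht cl en g ↔ SurjHom (f g).G H := by
  obtain ⟨c0, ⟨e0⟩⟩ := Finite.exists_equiv_fin {x : V // 0 < ht x}
  exact ⟨redR H par ht cl ⟨v0, D.v0c⟩ len e en e0.symm,
    poly_redR H par cl _ len e en e0.symm, fun g => fwd_bip D hcls en e0.symm g⟩

theorem reduces_loop [Finite V] (D : DatL H par ht cl v0 (fun _ => e) e)
    (hloop : ∀ φ : Core ht ≃ Core ht,
      (∀ v w : Core ht, v ≠ w → H v.1 w.1 → H (φ v).1 (φ w).1) →
      ∀ v : Core ht, H v.1 v.1 → H (φ v).1 (φ v).1) {n0 : ℕ} (en : Fin n0 ≃ Core ht) :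
    ∃ f : Gr → Gr, PolyC (fun _ : Gr => True) [Gr.encode] (fun g => (f g).encode) ∧
      ∀ g, Ret H ht en g ↔ SurjHom (f g).G H := by
  obtain ⟨c0, ⟨e0⟩⟩ := Finite.exists_equiv_fin {x : V // 0 < ht x}
  exact ⟨redR H par ht cl ⟨v0, D.v0c⟩ (fun _ => e) e en e0.symm,
    poly_redR H par cl _ _ e en e0.symm, fun g => fwd_loop D hloop en e0.symm g⟩

end Pool.Agent.Lib.P2baL
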