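import Pool.Agent.Lib.P2baL.MkG

/-!
# Module P2baL.PolyInP: decision problems in P as predicates

PROOFS. `poly_inP`: from `InP P` take f; `PolyC.applyTM2` (Lib/Pa7c826/Transfer.lean) with
x c = (g c).encode, y c = [f (g c)] gives PolyB, and f (g a) = true ↔ P (g a): `PolyP.ofB`, congr.
`inP_of_poly`: from PolyP (fun _ : Gr => True) [Gr.encode] P take φ; `PolyC.toTM2` with D = True and
encγ = fun b => [b] gives a machine for the subtype {a // True}; pass to Gr as in `mainR` in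
Lib/P2baR/FinalR.lean (⟨tm, time, fun g => hout ⟨g, trivial⟩⟩).
-/

set_option autoImplicit false

namespace Pool.Agent.Lib.P2baL

open Pool.Agent.Lib.P2ba8ab Pool.Agent.Lib.P2baR Pool.Agent.Lib.PolyTime
open Pool.Agent.Lib.Pa7c826 Pool.Agent.Lib.P8e91ed.PT Pool.Agent.P99b9fe

theorem poly_inP {P : Gr → Prop} (hP : InP P) {α : Type} {D : α → Prop}
    {ctx : List (α → List Bool)} {g : α → Gr} (hg : PolyC D ctx (fun a => (g a).encode)) :
    PolyP D ctx (fun a => P (g a)) := by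
  obtain ⟨f, hf, h1⟩ := hP
  have h2 : PolyB D ctx (fun a => f (g a)) :=
    PolyC.applyTM2 hf _ _ hg (fun c _ => ⟨g c, rfl, rfl⟩)
  exact (PolyP.ofB h2).congr (fun a _ => h1 (g a))

theorem inP_of_poly {P : Gr → Prop} (hP : PolyP (fun _ : Gr => True) [Gr.encode] P) : InP P := by
  obtain ⟨φ, h1, h2⟩ := hP
  obtain ⟨⟨tm, time, hout⟩⟩ := PolyC.toTM2 Gr.encode (D := fun _ => True) φ (fun b => [b]) h1
  exact ⟨φ, ⟨⟨tm, time, fun g => hout ⟨g, trivial⟩⟩⟩, fun g => h2 g trivial⟩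

end Pool.Agent.Lib.P2baL
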