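import Pool.Agent.Lib.P2baL.DefsC

/-!
# Module P2baL.LowM: surjective homomorphisms and retractions

PROOFS.
`Le.trans_par`, elementary facts (add your own lemmas as you like):
* two elements y, z with Le y w, Le z w and ht y = ht z are equal (heights on the way from w are
  ht w - i, `ht_iter`).
* (`low_le`) Let f : X → V satisfy G a b → H (f a) (f b), f (s y) = y. Then Low q y → Le y (f q).
  Induction on Low. base: Le y y (i = 0). step: Le z (f q'), 0 < ht z, G q' q, so H (f q') (f q);
  z = par^[i] (f q') with i < ht (f q') (as 0 < ht z), so 0 < ht (f q') and by `tree` for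
  H (f q') (f q): f q = f q' : par z = par^[i+1] (f q'), i + 1 ≤ ht; f q = par (f q'):
  par z = par^[i] (par (f q')) (`Function.iterate_succ_apply`), ht (par (f q')) = ht (f q') - 1;
  f q' = par (f q), 0 < ht (f q): par z = par^[i+2] (f q), ht (f q) = ht (f q') + 1.
* (`irr_above`) if Le y w and H w w then H y y (`loop_iter`); so y without loop makes w loopless.
* (`low_parity`) same hypotheses: Low q y → ¬ H y y → (Even (ht (f q)) ↔ Even (ht y)). Induction.
  base: f (s y) = y. step: z has no loop (`loop`: a loop at z would give one at par z, 0 < ht z), so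
  the induction hypothesis applies: Even (ht (f q')) ↔ Even (ht z). Le z (f q') so f q' has no loop
  and positive height; by `tree` f q = par (f q') or f q' = par (f q) with 0 < ht (f q): the heights
  differ by one (`ht_par`); and ht z = ht (par z) + 1. `Nat.even_add_one`.

`conv_mp`: f, surjective on Dm. choose s with Dm (s y) and f (s y) = y. Good: first part: `low_le`
with f (s x) = x. Second part: G q q', Top q y, Top q' y'; w = f q, w' = f q', H w w', Le y w,
Le y' w'. If 0 < ht y then Low q' (par y) (step; G symmetric), so ht y - 1 ≤ ht y'; likewise for y'.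
So |ht y - ht y'| ≤ 1. If ht y = ht y' + 1: par y and y' are both Le w' and have the same height, so
y' = par y, H y (par y) by `adj_par`. If ht y' = ht y + 1: symmetric. If ht y = ht y': CLAIM y = y'
or (both have height 0 and w = y, w' = y' [then H y y' by H w w']). Indeed if 0 < ht w or 0 < ht w':
say 0 < ht w (else swap by symmetry): `tree`: w' = w, w' = par w or (0 < ht w', w = par w'). In all
cases one of w, w' lies on the way down from the other [w' = par w: if ht w = 0.. no], so y and y'
are both Le the higher one [if w' = par w then Le y' w; if w = par w' then Le y w'], same height,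
so y = y'. It remains to show H y y. Suppose not. `low_parity`: Even (ht w) ↔ Even (ht y) ↔
Even (ht w'). w has no loop (irr_above), w ≠ w', and one of them has positive height, so the heights
differ by one (`tree`, `ht_par`): contradiction.
r := ρ ∘ f with the ρ of `exists_fold`. First property: clear. Second: ρ preserves H. Third:
G q q', Low q' v, ht v = 0: Le v (f q'), so v = root (f q') (i = ht (f q') because the height of
par^[i] is ht - i = 0). Either v has a loop, or by `low_parity` ht (f q') is even; so
ρ (f q') = root (f q') = v by the last property of `exists_fold`, and H (ρ (f q)) (ρ (f q')).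
-/

set_option autoImplicit false

namespace Pool.Agent.Lib.P2baL

open Pool.Agent.Lib.P2ba8ab Pool.Agent.Lib.P2baR

namespace LowMAux

variable {V : Type} {H : V → V → Prop} {par : V → V} {ht : V → ℕ}

theorem le_refl' (y : V) : Le par ht y y := ⟨0, Nat.zero_le _, rfl⟩

theorem le_ht (T : TreesL H par ht) {y z : V} (h : Le par ht y z) : ht y ≤ ht z := by
  obtain ⟨i, hi, rfl⟩ := h
  rw [ht_iter T z i hi]
  omega

theorem le_eq (T : TreesL H par ht) {y z w : V} (hy : Le par ht y w) (hz : Le par ht z w)
    (h : ht y = ht z) : y = z := by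
  obtain ⟨i, hi, rfl⟩ := hy
  obtain ⟨j, hj, rfl⟩ := hz
  rw [ht_iter T w i hi, ht_iter T w j hj] at h
  have : i = j := by omega
  rw [this]

theorem le_up (T : TreesL H par ht) {y w : V} (hw : 0 < ht w) (h : Le par ht y (par w)) :
    Le par ht y w := by
  obtain ⟨i, hi, hy⟩ := h
  have h1 := T.ht_par w hw
  exact ⟨i + 1, by omega, by rw [Function.iterate_succ_apply]; exact hy⟩

theorem le_down (T : TreesL H par ht) {y w : V} (hy : 0 < ht y) (h : Le par ht y w) :
    Le par ht (par y) w := by
  obtain ⟨i, hi, rfl⟩ := h
  rw [ht_iter T w i hi] at hy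
  exact ⟨i + 1, by omega, by rw [Function.iterate_succ_apply']⟩

theorem le_cases (T : TreesL H par ht) {y w : V} (h : Le par ht y w) :
    y = w ∨ (0 < ht w ∧ Le par ht y (par w)) := by
  obtain ⟨i, hi, hy⟩ := h
  rcases i with _ | k
  · exact Or.inl hy.symm
  · have h0 : 0 < ht w := by omega
    have h1 := T.ht_par w h0
    refine Or.inr ⟨h0, k, by omega, ?_⟩
    rwa [Function.iterate_succ_apply] at hy

theorem irr_above (T : TreesL H par ht) {y w : V} (h : Le par ht y w) (hw : H w w) : H y y := by
  obtain ⟨i, hi, rfl⟩ := h
  exact loop_iter T hw i hi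

variable {X : Type} {G : X → X → Prop} {f : X → V} {s : V → X}

theorem low_le (T : TreesL H par ht) (hf : ∀ a b, G a b → H (f a) (f b)) (hs : ∀ y, f (s y) = y)
    {q : X} {y : V} (h : Low par ht G s q y) : Le par ht y (f q) := by
  induction h with
  | base y =>
    rw [hs]
    exact le_refl' y
  | step q q' z _ hz hg ih =>
    have hpos : 0 < ht (f q') := lt_of_lt_of_le hz (le_ht T ih)
    rcases T.tree _ _ (hf _ _ hg) hpos with h | h | ⟨h0, h⟩
    · rw [h]
      exact le_down T hz ih
    · rw [h]
      rcases le_cases T ih with h1 | ⟨_, h1⟩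
      · rw [h1]
        exact le_refl' _
      · exact le_down T hz h1
    · rw [h] at ih
      exact le_down T hz (le_up T h0 ih)

theorem low_parity (T : TreesL H par ht) (hf : ∀ a b, G a b → H (f a) (f b))
    (hs : ∀ y, f (s y) = y) {q : X} {y : V} (h : Low par ht G s q y) :
    ¬ H y y → (Even (ht (f q)) ↔ Even (ht y)) := by
  induction h with
  | base y =>
    intro _
    rw [hs]
  | step q q' z hlow hz hg ih =>
    intro hn
    have hnz : ¬ H z z := fun h => hn (T.loop z hz h)
    have h1 := ih hnz
    have hle := low_le T hf hs hlow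
    have hpos : 0 < ht (f q') := lt_of_lt_of_le hz (le_ht T hle)
    have hnl : ¬ H (f q') (f q') := fun h => hnz (irr_above T hle h)
    have hz1 := T.ht_par z hz
    rw [hz1, Nat.even_add_one] at h1
    have hadj := hf _ _ hg
    rcases T.tree _ _ hadj hpos with h | h | ⟨h0, h⟩
    · rw [h] at hadj
      exact absurd hadj hnl
    · have h2 := T.ht_par _ hpos
      rw [← h] at h2
      rw [h2, Nat.even_add_one] at h1
      tauto
    · have h2 := T.ht_par _ h0
      rw [← h] at h2
      rw [h2, Nat.even_add_one]
      tauto

/-- adjacent vertices of the target above the same vertex -/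
theorem same_top (T : TreesL H par ht) {y w w' : V} (hww : H w w') (hy : Le par ht y w)
    (e1 : ¬ H y y → (Even (ht w) ↔ Even (ht y))) (e2 : ¬ H y y → (Even (ht w') ↔ Even (ht y)))
    (hpos : 0 < ht w) : H y y := by
  by_contra hn
  have h1 := e1 hn
  have h2 := e2 hn
  have hnl : ¬ H w w := fun h => hn (irr_above T hy h)
  rcases T.tree _ _ hww hpos with h | h | ⟨h0, h⟩
  · rw [h] at hww
    exact hnl hww
  · have h3 := T.ht_par _ hpos
    rw [← h] at h3
    rw [h3, Nat.even_add_one] at h1
    tauto
  · have h3 := T.ht_par _ h0
    rw [← h] at h3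
    rw [h3, Nat.even_add_one] at h2
    tauto

/-- two vertices of the same height below adjacent vertices -/
theorem eq_of_adj (T : TreesL H par ht) {y y' w w' : V} (hww : H w w') (hy : Le par ht y w)
    (hy' : Le par ht y' w') (he : ht y = ht y') (hpos : 0 < ht w) : y = y' := by
  rcases T.tree _ _ hww hpos with h | h | ⟨h0, h⟩
  · rw [h] at hy'
    exact le_eq T hy hy' he
  · rw [h] at hy'
    exact le_eq T hy (le_up T hpos hy') he
  · rw [h] at hy
    exact le_eq T (le_up T h0 hy) hy' he

end LowMAux

open LowMAux

theorem conv_mp {V X : Type} {H : V → V → Prop} {par : V → V} {ht : V → ℕ}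
    (T : TreesL H par ht) (G : X → X → Prop) (hG : ∀ a b, G a b → G b a) (Dm : X → Prop)
    (f : X → V) (hf : ∀ a b, G a b → H (f a) (f b)) (hs : ∀ y, ∃ a, Dm a ∧ f a = y) :
    ∃ s : V → X, (∀ y, Dm (s y)) ∧ Good H par ht G s ∧ ∃ r : X → V, (∀ q, ht (r q) = 0) ∧
      (∀ q q', G q q' → H (r q) (r q')) ∧
      ∀ q q' v, G q q' → Low par ht G s q' v → ht v = 0 → H (r q) v := by
  classical
  choose s hs' using hs
  have hs : ∀ y, f (s y) = y := fun y => (hs' y).2
  refine ⟨s, fun y => (hs' y).1, ⟨?_, ?_⟩, ?_⟩
  · intro x y h
    have h1 := low_le T hf hs h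
    rwa [hs] at h1
  · intro q q' hq y y' hy hy'
    have hww := hf _ _ hq
    have ly := low_le T hf hs hy.1
    have ly' := low_le T hf hs hy'.1
    have p1 : 0 < ht y → Low par ht G s q' (par y) := fun h => Low.step q' q y hy.1 h hq
    have p2 : 0 < ht y' → Low par ht G s q (par y') :=
      fun h => Low.step q q' y' hy'.1 h (hG _ _ hq)
    have b1 : ht y ≤ ht y' + 1 := by
      rcases Nat.eq_zero_or_pos (ht y) with h | h
      · omega
      · have h1 := hy'.2 _ (p1 h)
        have h2 := T.ht_par y h
        omega
    have b2 : ht y' ≤ ht y + 1 := by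
      rcases Nat.eq_zero_or_pos (ht y') with h | h
      · omega
      · have h1 := hy.2 _ (p2 h)
        have h2 := T.ht_par y' h
        omega
    rcases Nat.lt_trichotomy (ht y) (ht y') with h | h | h
    · have h0 : 0 < ht y' := by omega
      have h1 := T.ht_par y' h0
      have h2 : par y' = y := le_eq T (low_le T hf hs (p2 h0)) ly (by omega)
      have h3 := T.adj_par y' h0
      rw [h2] at h3
      exact T.symm _ _ h3
    · by_cases hw : 0 < ht (f q)
      · have e := eq_of_adj T hww ly ly' h hw
        subst e
        exact same_top T hww ly (low_parity T hf hs hy.1) (low_parity T hf hs hy'.1) hw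
      · by_cases hw' : 0 < ht (f q')
        · have e := eq_of_adj T (T.symm _ _ hww) ly' ly h.symm hw'
          subst e
          exact same_top T (T.symm _ _ hww) ly' (low_parity T hf hs hy'.1)
            (low_parity T hf hs hy.1) hw'
        · rcases le_cases T ly with h1 | ⟨h1, _⟩
          · rcases le_cases T ly' with h2 | ⟨h2, _⟩
            · rw [h1, h2]
              exact hww
            · exact absurd h2 hw'
          · exact absurd h1 hw
    · have h0 : 0 < ht y := by omega
      have h1 := T.ht_par y h0
      have h2 : par y = y' := le_eq T (low_le T hf hs (p1 h0)) ly' (by omega)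
      have h3 := T.adj_par y h0
      rwa [h2] at h3
  · obtain ⟨ρ, r1, _, r3, r4⟩ := exists_fold T
    refine ⟨fun q => ρ (f q), fun q => r1 _, fun q q' h => r3 _ _ (hf _ _ h), ?_⟩
    intro q q' v hq hv hv0
    have lv := low_le T hf hs hv
    have hroot : root par ht (f q') = v := by
      have h1 := ht_root T (f q')
      exact le_eq T ⟨ht (f q'), le_rfl, rfl⟩ lv (by rw [h1, hv0])
    have h2 : ρ (f q') = v := by
      rw [r4 (f q'), hroot]
      rw [hroot]
      by_cases hl : H v v
      · exact Or.inl hl
      · refine Or.inr ((low_parity T hf hs hv hl).2 ?_)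
        rw [hv0]
        exact Even.zero
    have h3 := r3 _ _ (hf _ _ hq)
    rwa [h2] at h3

end Pool.Agent.Lib.P2baL
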