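import Pool.Agent.Lib.P2baL.InstA
import Pool.Agent.Lib.P2baL.LowM
import Pool.Agent.Lib.P2baL.LowR

/-!
# Module P2baL.Inst: the instance of the retraction problem is correct

PROOF. `inst_iff`: (⇒) conv_mp with X = ℕ, G = GN g, Dm a := a < g.n, applied to `surj_nat`; Good holds, so
inst = mkG (n0 + g.n) (relI ..); use `ret_mkG` with r' i = en i for i < n0 and r (i - n0) otherwise:
check relI: first kind: H (r ..) (r ..); second kind: j = v < n0, r' j = (en v).1, Low q (en v).1,
ht (en v).1 = 0: third property of conv_mp (GN (i - n0) q).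
(⇐) Ret of mkG 0 is impossible since n0 > 0 (the core is not empty, hcore and `en`), so Good holds.
From r' : ℕ → V define r q = r' (n0 + q); conv_mpr: h1: for q, q' not bounded with GN g q q' (so
q ≠ q', q, q' < g.n by gn_lt): relI (n0 + q) (n0 + q') of the first kind; h2: GN q q', q not bounded,
Low q' v, ht v = 0: v = (en j).1 for j = en.symm ⟨v, _⟩; relI (n0 + q) j of the second kind
(q' < g.n by gn_lt), r' j = (en j).1 = v. Then `surj_nat`.
-/

set_option autoImplicit false

namespace Pool.Agent.Lib.P2baL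

open Pool.Agent.Lib.P2ba8ab Pool.Agent.Lib.P2baR

theorem inst_iff {V : Type} [Finite V] {H : V → V → Prop} {par : V → V} {ht : V → ℕ}
    (T : TreesL H par ht) (hcore : ∃ v, ht v = 0) {n0 : ℕ} (en : Fin n0 ≃ Core ht) (g : Gr) :
    SurjHom g.G H ↔ ∃ s : V → ℕ, (∀ y, s y < g.n) ∧ Ret H ht en (inst H par ht en g s) := by
  have hV : Nonempty V := ⟨hcore.choose⟩
  constructor
  · intro h
    obtain ⟨f, hf, hs⟩ := (surj_nat hV g).1 h
    obtain ⟨s, hs', hgood, r, hr0, hr1, hr2⟩ :=
      conv_mp T (GN g) (fun a b hab => gn_symm hab) (fun a => a < g.n) f hf hs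
    refine ⟨s, hs', ?_⟩
    unfold inst
    rw [if_pos hgood]
    rw [ret_mkG T.symm hcore en (n0 + g.n) (Nat.le_add_right _ _)]
    refine ⟨fun i => if hi : i < n0 then (en ⟨i, hi⟩).1 else r (i - n0), ?_, ?_, ?_⟩
    · intro a
      by_cases ha : a < n0
      · simp only [dif_pos ha]
        exact (en ⟨a, ha⟩).2
      · simp only [dif_neg ha]
        exact hr0 _
    · intro a b _ _ _ hR
      rcases hR with ⟨ha, hb, hab, _, _⟩ | ⟨ha, _, q, _, hq, v, hv, hlow⟩
      · simp only [dif_neg (not_lt.2 ha), dif_neg (not_lt.2 hb)]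
        exact hr1 _ _ hab
      · have hb : b < n0 := by rw [hv]; exact v.2
        simp only [dif_neg (not_lt.2 ha), dif_pos hb]
        have hbv : (⟨b, hb⟩ : Fin n0) = v := Fin.ext hv
        rw [hbv]
        exact hr2 _ _ _ hq hlow (en v).2
    · intro i
      simp only [dif_pos i.2]
  · rintro ⟨s, hs, hret⟩
    have hn0 : 0 < n0 := by
      obtain ⟨v, hv⟩ := hcore
      have := (en.symm ⟨v, hv⟩).2
      omega
    by_cases hgood : Good H par ht (GN g) s
    · unfold inst at hret
      rw [if_pos hgood] at hret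
      rw [ret_mkG T.symm hcore en (n0 + g.n) (Nat.le_add_right _ _)] at hret
      obtain ⟨r, _, hr, hi⟩ := hret
      apply (surj_nat hV g).2
      apply conv_mpr T (GN g) (fun a b hab => gn_symm hab) (fun a => a < g.n) s hs hgood
        (fun q => r (n0 + q))
      · intro q q' hqq hq hq'
        obtain ⟨h1, h2, h3⟩ := gn_lt hqq
        apply hr (n0 + q) (n0 + q') (by omega) (by omega) (by omega)
        left
        refine ⟨by omega, by omega, ?_, ?_, ?_⟩
        · simpa using hqq
        · simpa using hq
        · simpa using hq'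
      · intro q q' v hqq hq hlow hv
        obtain ⟨h1, h2, h3⟩ := gn_lt hqq
        have hj : ((en (en.symm ⟨v, hv⟩)).1 : V) = v := by rw [Equiv.apply_symm_apply]
        have hi' := hi (en.symm ⟨v, hv⟩)
        rw [hj] at hi'
        have hlt := (en.symm ⟨v, hv⟩).2
        have key := hr (n0 + q) ((en.symm ⟨v, hv⟩ : Fin n0) : ℕ) (by omega) (by omega) (by omega)
          (Or.inr ⟨by omega, by simpa using hq, q', h2, by simpa using hqq, en.symm ⟨v, hv⟩, rfl,
            by rw [hj]; exact hlow⟩)
        rw [hi'] at key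
        exact key
    · exfalso
      unfold inst at hret
      rw [if_neg hgood] at hret
      obtain ⟨h, _⟩ := hret
      have : n0 ≤ 0 := h
      omega

end Pool.Agent.Lib.P2baL
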