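import Pool.Agent.Lib.P2baL.DefsC

/-!
# Module P2baL.InstA: graphs with numbered vertices

PROOFS. `gn_symm`, `gn_lt`: definition of `adjN` (see `TableRAux.adjN_symm` in
Lib/P2baR/TableR.lean). `surj_nat`: from f : Fin g.n → V to ℕ → V by any value outside (V nonempty
because surjective / or g.n > 0; if V is empty both sides are: left: f exists iff g.n = 0;
use hV : Nonempty V), using `adjN_fin`, `gn_lt`; conversely restrict.
`ret_mkG`: unfold `Ret`, `mkG`, `SimpleGraph.fromRel_adj`; H symmetric gives both orientations; from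
r : Fin N → V one gets ℕ → V by a core value outside (there is one: `en` and n0 ≤ N; for N = 0 use
n0 = 0.. use hcore : ∃ v, ht v = 0). In the direction from ℕ → V to Fin N restrict. Note that in
(⇐) the edges of mkG have different ends, in (⇒) the relation at equal ends is excluded by a ≠ b.
-/

set_option autoImplicit false

namespace Pool.Agent.Lib.P2baL

open Pool.Agent.Lib.P2ba8ab Pool.Agent.Lib.P2baR

theorem gn_lt {g : Gr} {a b : ℕ} (h : GN g a b) : a < g.n ∧ b < g.n ∧ a ≠ b := by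
  unfold GN adjN at h
  by_cases hab : a < g.n ∧ b < g.n
  · rw [dif_pos hab] at h
    have h' : g.G.Adj ⟨a, hab.1⟩ ⟨b, hab.2⟩ := by simpa using h
    refine ⟨hab.1, hab.2, ?_⟩
    intro e
    subst e
    exact (SimpleGraph.irrefl g.G) h'
  · rw [dif_neg hab] at h
    exact absurd h (by simp)

theorem gn_symm {g : Gr} {a b : ℕ} (h : GN g a b) : GN g b a := by
  obtain ⟨ha, hb, _⟩ := gn_lt h
  have h1 : g.G.Adj ⟨a, ha⟩ ⟨b, hb⟩ := (adjN_fin g ⟨a, ha⟩ ⟨b, hb⟩).1 h
  exact (adjN_fin g ⟨b, hb⟩ ⟨a, ha⟩).2 h1.symm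

theorem surj_nat {V : Type} {H : V → V → Prop} (hV : Nonempty V) (g : Gr) :
    SurjHom g.G H ↔ ∃ f : ℕ → V, (∀ a b, GN g a b → H (f a) (f b)) ∧
      ∀ y, ∃ a, a < g.n ∧ f a = y := by
  constructor
  · rintro ⟨f, hf, hs⟩
    refine ⟨fun a => if h : a < g.n then f ⟨a, h⟩ else hV.some, ?_, ?_⟩
    · intro a b hab
      obtain ⟨ha, hb, _⟩ := gn_lt hab
      have h1 : g.G.Adj ⟨a, ha⟩ ⟨b, hb⟩ := (adjN_fin g ⟨a, ha⟩ ⟨b, hb⟩).1 hab
      simp only [dif_pos ha, dif_pos hb]
      exact hf _ _ h1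
    · intro y
      obtain ⟨a, ha⟩ := hs y
      refine ⟨a, a.2, ?_⟩
      simp only [dif_pos a.2]
      exact ha
  · rintro ⟨f, hf, hs⟩
    refine ⟨fun a => f a, ?_, ?_⟩
    · intro a b hab
      exact hf _ _ ((adjN_fin g a b).2 hab)
    · intro y
      obtain ⟨a, ha, hy⟩ := hs y
      exact ⟨⟨a, ha⟩, hy⟩

theorem ret_mkG {V : Type} {H : V → V → Prop} {ht : V → ℕ} (hH : ∀ a b, H a b → H b a)
    (hcore : ∃ v, ht v = 0) {n0 : ℕ} (en : Fin n0 ≃ Core ht) (N : ℕ) (hN : n0 ≤ N)
    (R : ℕ → ℕ → Prop) :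
    Ret H ht en (mkG N R) ↔ ∃ r : ℕ → V, (∀ a, ht (r a) = 0) ∧
      (∀ a b, a < N → b < N → a ≠ b → R a b → H (r a) (r b)) ∧
      ∀ i : Fin n0, r i = (en i).1 := by
  obtain ⟨v, hv⟩ := hcore
  constructor
  · rintro ⟨h, r, hr, he, hi⟩
    refine ⟨fun a => if h : a < N then r ⟨a, h⟩ else v, ?_, ?_, ?_⟩
    · intro a
      by_cases ha : a < N
      · simp only [dif_pos ha]
        exact hr _
      · simp only [dif_neg ha]
        exact hv
    · intro a b ha hb hab hR
      simp only [dif_pos ha, dif_pos hb]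
      apply he
      change (SimpleGraph.fromRel (fun a b : Fin N => R a b)).Adj _ _
      rw [SimpleGraph.fromRel_adj]
      refine ⟨?_, Or.inl hR⟩
      intro e
      exact hab (congrArg Fin.val e)
    · intro i
      have hiN : (i : ℕ) < N := lt_of_lt_of_le i.2 hN
      simp only [dif_pos hiN]
      exact hi i
  · rintro ⟨r, hr, he, hi⟩
    refine ⟨hN, fun a => r a.1, ?_, ?_, ?_⟩
    · intro a
      exact hr _
    · intro a b hab
      change (SimpleGraph.fromRel (fun a b : Fin N => R a b)).Adj a b at hab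
      rw [SimpleGraph.fromRel_adj] at hab
      obtain ⟨hne, h1 | h1⟩ := hab
      · exact he _ _ a.2 b.2 (fun e => hne (Fin.ext e)) h1
      · exact hH _ _ (he _ _ b.2 a.2 (fun e => hne (Fin.ext e.symm)) h1)
    · intro i
      exact hi i

end Pool.Agent.Lib.P2baL
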