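import Pool.Agent.Lib.P2baL.Forest

/-!
# Module P2baL.MaxS: the extremal set of tree vertices

For Y ⊆ V let F Y = |St Y| - e |Y| (an integer). Let S maximise F, and among the maximisers let it
have the greatest cardinality. Then S has an element of positive height over every vertex of the
core: otherwise a vertex of height at least e could be added.
-/

set_option autoImplicit false

namespace Pool.Agent.Lib.P2baL

open Pool.Agent.Lib.P2ba8ab Pool.Agent.Lib.P2baR

namespace MaxSAux

theorem mem_St {V : Type} [Fintype V] {par : V → V} {ht : V → ℕ} {Y : Finset V} {z : V} :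
    z ∈ St par ht Y ↔ ∃ x ∈ Y, Anc par ht z x := by
  classical
  unfold St
  rw [Finset.mem_filter]
  exact ⟨fun h => h.2, fun h => ⟨Finset.mem_univ _, h⟩⟩

end MaxSAux

open MaxSAux in
theorem exists_maxS {V : Type} [Fintype V] {H : V → V → Prop} {par : V → V} {ht : V → ℕ}
    (T : TreesL H par ht) {e : ℕ} (he : 0 < e)
    (tall : ∀ v, ht v = 0 → ∃ x, root par ht x = v ∧ e ≤ ht x) :
    ∃ S : Finset V,
      (∀ Y : Finset V, ((St par ht Y).card : ℤ) - e * Y.card ≤
        ((St par ht S).card : ℤ) - e * S.card) ∧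
      ∀ v, ht v = 0 → ∃ x ∈ S, 0 < ht x ∧ root par ht x = v := by
  classical
  obtain ⟨M, -, hM⟩ := Finset.exists_max_image (Finset.univ : Finset (Finset V))
    (fun Y => ((St par ht Y).card : ℤ) - e * Y.card) ⟨∅, Finset.mem_univ _⟩
  obtain ⟨S, hS, hcard⟩ := Finset.exists_max_image
    ((Finset.univ : Finset (Finset V)).filter (fun Y => ((St par ht Y).card : ℤ) - e * Y.card =
      ((St par ht M).card : ℤ) - e * M.card)) (fun Y => Y.card)
    ⟨M, Finset.mem_filter.2 ⟨Finset.mem_univ _, rfl⟩⟩
  have hS' := (Finset.mem_filter.1 hS).2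
  have h1 : ∀ Y : Finset V, ((St par ht Y).card : ℤ) - e * Y.card ≤
        ((St par ht S).card : ℤ) - e * S.card := by
    intro Y
    rw [hS']
    exact hM Y (Finset.mem_univ _)
  refine ⟨S, h1, ?_⟩
  · intro v hv
    by_contra hcon
    have hcon' : ∀ x ∈ S, 0 < ht x → root par ht x ≠ v := fun x hx h0 h2 =>
      hcon ⟨x, hx, h0, h2⟩
    obtain ⟨x, hx1, hx2⟩ := tall v hv
    have hx0 : 0 < ht x := by omega
    have hxS : x ∉ S := fun h => hcon' x h hx0 hx1
    have hun : St par ht (insert x S) = St par ht S ∪ St par ht {x} := by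
      ext z
      rw [Finset.mem_union, mem_St, mem_St, mem_St]
      constructor
      · rintro ⟨y, hy, hz⟩
        rcases Finset.mem_insert.1 hy with rfl | hy
        · exact Or.inr ⟨y, Finset.mem_singleton_self _, hz⟩
        · exact Or.inl ⟨y, hy, hz⟩
      · rintro (⟨y, hy, hz⟩ | ⟨y, hy, hz⟩)
        · exact ⟨y, Finset.mem_insert_of_mem hy, hz⟩
        · exact ⟨y, by rw [Finset.mem_singleton.1 hy]; exact Finset.mem_insert_self _ _, hz⟩
    have hdis : Disjoint (St par ht S) (St par ht {x}) := by
      rw [Finset.disjoint_left]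
      intro z hz1 hz2
      rw [mem_St] at hz1 hz2
      obtain ⟨y, hy, hzy⟩ := hz1
      obtain ⟨y', hy', hzy'⟩ := hz2
      rw [Finset.mem_singleton.1 hy'] at hzy'
      refine hcon' y hy (anc_posx hzy) ?_
      rw [← anc_root T hzy, anc_root T hzy', hx1]
    have h2 := h1 (insert x S)
    rw [hun, Finset.card_union_of_disjoint hdis, card_anc T x, Finset.card_insert_of_notMem hxS]
      at h2
    have h3 : (e : ℤ) ≤ ht x := by exact_mod_cast hx2
    have h4 : ((St par ht (insert x S)).card : ℤ) - e * (insert x S).card =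
        ((St par ht M).card : ℤ) - e * M.card := by
      rw [hun, Finset.card_union_of_disjoint hdis, card_anc T x,
        Finset.card_insert_of_notMem hxS, ← hS']
      push_cast at h2 ⊢
      linarith
    have h5 := hcard _ (Finset.mem_filter.2 ⟨Finset.mem_univ _, h4⟩)
    rw [Finset.card_insert_of_notMem hxS] at h5
    omega

end Pool.Agent.Lib.P2baL
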