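import Pool.Agent.Lib.P2baL.DefsC
import Pool.Agent.Lib.P99b9fe.PolyTab
import Pool.Agent.Lib.P99b9fe.TabFix

/-!
# Module P2baL.MkG: building graphs in polynomial time

PROOFS. `p_n`, `p_gn`: `PolyC.comp` of `poly_n`, `poly_rest` (Lib/P2ba8ab/Poly.lean; first reindex
along a ↦ g a, `PolyC.reindex`, as `poly_conn_move` in Lib/P99b9fe/PolyConn.lean), `adjN_getD` and
`PolyB.getD` (see the proof of `poly_tabG` in Lib/P2baR/PolyR.lean). `poly_mkG`: `encode_eq`,
`PolyC.map_range`, `PolyC.append`, `PolyC.cons` as at the end of `poly_of_tableG` in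
Lib/P2baR/PolyR.lean; adjN (mkG N R) a b = true iff a < N, b < N, a ≠ b and (R a b or R b a); in the
range p.2 < N p.1 * N p.1 the quotient and the remainder by N p.1 are less than N p.1.
`n_div`, `n_mod`, `p_const`, `PolyP` combinators: Lib/P99b9fe/PolyFin.lean, Lib/P8e91ed/PolyBin.lean.
`poly_if`: two cases by a PolyP condition: `PolyC.ite` (Lib/PolyTime/Comb.lean) with the function φ
of `PolyP`.
-/

set_option autoImplicit false

namespace Pool.Agent.Lib.P2baL

open Pool.Agent.Lib.P2ba8ab Pool.Agent.Lib.P2baR Pool.Agent.Lib.PolyTime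
open Pool.Agent.Lib.Pa7c826 Pool.Agent.Lib.P8e91ed.PT Pool.Agent.P99b9fe

variable {α : Type} {D : α → Prop} {ctx : List (α → List Bool)}

namespace MkGAux

theorem move {g : α → Gr} (hg : PolyC D ctx (fun a => (g a).encode)) {f : Gr → List Bool}
    (h : PolyC (fun _ => True) [Gr.encode] f) : PolyC D ctx (fun a => f (g a)) := by
  refine (PolyC.reindex (D' := D) h g (fun _ _ => trivial)).comp ?_
  intro u hu
  rw [List.map_cons, List.map_nil, List.mem_singleton] at hu
  subst hu
  exact hg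

theorem adj_mkG (N : ℕ) (R : ℕ → ℕ → Prop) (a b : ℕ) (ha : a < N) (hb : b < N) :
    adjN (mkG N R) a b = true ↔ a ≠ b ∧ (R a b ∨ R b a) := by
  classical
  have h : a < (mkG N R).n ∧ b < (mkG N R).n := ⟨ha, hb⟩
  simp only [adjN, dif_pos h, decide_eq_true_eq]
  change (SimpleGraph.fromRel (fun a b : Fin N => R a b)).Adj ⟨a, ha⟩ ⟨b, hb⟩ ↔ _
  rw [SimpleGraph.fromRel_adj]
  constructor
  · rintro ⟨h1, h2⟩
    exact ⟨fun h3 => h1 (Fin.ext h3), h2⟩
  · rintro ⟨h1, h2⟩
    exact ⟨fun h3 => h1 (congrArg Fin.val h3), h2⟩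

end MkGAux

open MkGAux

theorem p_n {g : α → Gr} (hg : PolyC D ctx (fun a => (g a).encode)) :
    PolyN D ctx (fun a => (g a).n) := move hg poly_n

theorem p_gn {g : α → Gr} (hg : PolyC D ctx (fun a => (g a).encode)) {i j : α → ℕ}
    (hi : PolyN D ctx i) (hj : PolyN D ctx j) : PolyP D ctx (fun a => GN (g a) (i a) (j a)) := by
  have hr : PolyC D ctx (fun a => (List.range ((g a).n * (g a).n)).map
      (fun k => adjN (g a) (k / (g a).n) (k % (g a).n))) := move hg poly_rest
  have hn := p_n hg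
  have h0 : PolyB D ctx (fun a => (decide (j a < (g a).n)) && adjN (g a) (i a) (j a)) := by
    refine ((PolyB.lt hj hn).and (PolyB.getD hr ((hi.mul hn).add hj))).congr (fun a _ => ?_)
    by_cases h : j a < (g a).n
    · rw [adjN_getD _ _ _ h]
    · simp [h]
  refine PolyP.ofB (h0.congr (fun a _ => ?_))
  by_cases h : j a < (g a).n
  · simp [h]
  · simp [h, adjN]

theorem poly_mkG {N : α → ℕ} {R : α → ℕ → ℕ → Prop} (hN : PolyN D ctx N)
    (hR : ∀ i j : α × ℕ → ℕ, PolyN (Dx D (fun a => N a * N a)) (cx ctx) i →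
      PolyN (Dx D (fun a => N a * N a)) (cx ctx) j →
      PolyP (Dx D (fun a => N a * N a)) (cx ctx) (fun p => R p.1 (i p) (j p))) :
    PolyC D ctx (fun a => (mkG (N a) (R a)).encode) := by
  have hL : PolyN (Dx D (fun a => N a * N a)) (cx ctx) (fun p => p.2) := nL
  have hNu : PolyN (Dx D (fun a => N a * N a)) (cx ctx) (fun p => N p.1) := nU hN
  have hq := n_div hL hNu
  have hm := n_mod hL hNu
  obtain ⟨φ, h1, h2⟩ := ((PolyP.eq hq hm).not).and ((hR _ _ hq hm).or (hR _ _ hm hq))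
  have h3 := PolyC.append hN (PolyC.cons false (PolyC.map_range (hN.mul hN) h1))
  refine h3.congr (fun a ha => ?_)
  rw [encode_eq]
  change un (N a) ++ _ = un (N a) ++ _
  congr 2
  refine List.map_congr_left ?_
  intro k hk
  rw [List.mem_range] at hk
  have hpos : 0 < N a := by
    rcases Nat.eq_zero_or_pos (N a) with h0 | h0
    · rw [h0] at hk; omega
    · exact h0
  have h4 := h2 (a, k) ⟨ha, hk⟩
  have h5 := adj_mkG (N a) (R a) (k / N a) (k % N a) ((Nat.div_lt_iff_lt_mul hpos).2 hk)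
    (Nat.mod_lt _ hpos)
  rw [Bool.eq_iff_iff, h4]
  exact h5.symm

open Classical in
theorem poly_if {P : α → Prop} {t u : α → List Bool} (hP : PolyP D ctx P) (ht : PolyC D ctx t)
    (hu : PolyC D ctx u) : PolyC D ctx (fun a => if P a then t a else u a) := by
  obtain ⟨φ, h1, h2⟩ := hP
  refine (PolyC.ite h1 (PolyC.mono ht fun _ h => h.1) (PolyC.mono hu fun _ h => h.1)).congr
    (fun a ha => ?_)
  by_cases h : P a
  · rw [if_pos h, if_pos ((h2 a ha).2 h)]
  · rw [if_neg h, if_neg (fun h' => h ((h2 a ha).1 h'))]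

end Pool.Agent.Lib.P2baL
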