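import Pool.Agent.Lib.P2baL.BipM
import Pool.Agent.Lib.P2baL.BipT

/-!
# Module P2baL.PolyBip: the retraction problem reduces to the one with bipartitions

PROOFS. `poly_ruleD`: for fixed g the iteration `tabL` is polynomial by `poly_tabL`
(Lib/P99b9fe/PolyTab.lean; used in Lib/P99b9fe/PolyConn.lean in the same way), `tabL_getD`;
stepD: `p_gn`, `n_div`, `n_mod`, `PolyP.eq`, `p_anyF` over Fin n0, `p_const`.
The function: f g = mkG (n0 + 2 g.n) (relD cl en g) if n0 ≤ g.n and BipOK cl en g, and mkG 0 _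
otherwise. `ret_iff_dc` if the condition holds; otherwise both sides are false: Ret by `ret_iff_dc`,
RetCore of a graph without vertices because 0 < n0 (core not empty). Polynomial: `poly_if`,
`apply_ite`, `poly_mkG`, with BipOK replaced by the right side of `bip_iff` under n0 ≤ g.n (the
conjunction n0 ≤ g.n ∧ BipOK g is equivalent to n0 ≤ g.n ∧ ∀ a < g.n, ..), `p_fa`, `PolyP.not`.
hedge: a core vertex v (hcore) and its neighbour b in the core by `T.deg`, hcls; `en.symm`.
-/

set_option autoImplicit false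

namespace Pool.Agent.Lib.P2baL

open Pool.Agent.Lib.P2ba8ab Pool.Agent.Lib.P2baR Pool.Agent.Lib.PolyTime
open Pool.Agent.Lib.Pa7c826 Pool.Agent.Lib.P8e91ed.PT Pool.Agent.P99b9fe

namespace PolyBipAux

/-- Moving a function to another domain. -/
theorem move {α β : Type} {D : α → Prop} {ctx : List (α → List Bool)} {D' : β → Prop}
    {ctx' : List (β → List Bool)} (π : β → α)
    (hD : ∀ b, D' b → D (π b)) (hc : ∀ f ∈ ctx, PolyC D' ctx' (fun b => f (π b)))
    {f : α → List Bool} (h : PolyC D ctx f) : PolyC D' ctx' (fun b => f (π b)) := by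
  refine (PolyC.reindex (D' := D') h π hD).comp ?_
  intro f hf
  obtain ⟨g, hg, rfl⟩ := List.mem_map.1 hf
  exact hc g hg

theorem poly_stepD {V : Type} {ht : V → ℕ} {n0 : ℕ} (cl : V → Bool)
    (en : Fin n0 ≃ Core ht) {α : Type} {D : α → Prop} {ctx : List (α → List Bool)} {g : α → Gr}
    {u z : α → ℕ} (hg : PolyC D ctx (fun c => (g c).encode)) (hu : PolyN D ctx u)
    (hz : PolyN D ctx z) : PolyP D ctx (fun c => stepD cl en (g c) (u c) (z c)) := by
  have h2 : PolyN D ctx (fun _ => 2) := PolyN.const 2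
  refine ((PolyP.eq (n_mod hu h2) (n_mod hz h2)).not).and ?_
  refine (p_gn hg (n_div hu h2) (n_div hz h2)).or ?_
  refine p_anyF (fun v => p_anyF (fun w => ?_))
  exact (PolyP.eq (n_div hu h2) (PolyN.const _)).and
    ((PolyP.eq (n_div hz h2) (PolyN.const _)).and (p_const _))

theorem poly_relD {V : Type} {ht : V → ℕ} {n0 : ℕ} (cl : V → Bool)
    (en : Fin n0 ≃ Core ht) {α : Type} {D : α → Prop} {ctx : List (α → List Bool)} {g : α → Gr}
    {i j : α → ℕ} (hg : PolyC D ctx (fun c => (g c).encode)) (hi : PolyN D ctx i)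
    (hj : PolyN D ctx j) : PolyP D ctx (fun c => relD cl en (g c) (i c) (j c)) := by
  have h0 : PolyN D ctx (fun _ => n0) := PolyN.const n0
  have h1 : PolyN D ctx (fun _ => 1) := PolyN.const 1
  have hz : PolyN D ctx (fun _ => 0) := PolyN.const 0
  have h2 : PolyN D ctx (fun _ => 2) := PolyN.const 2
  have hi' := PolyN.sub hi h0
  have hj' := PolyN.sub hj h0
  refine PolyP.or ?_ (PolyP.or ?_ ?_)
  · exact (PolyP.lt hi h0).and ((PolyP.lt hj h0).and (p_gn hg hi hj))
  · refine (PolyP.le h0 hj).and ((PolyP.le h0 (n_div hj' h2)).and ?_)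
    refine p_anyF (fun v => ?_)
    refine (PolyP.eq hi (PolyN.const _)).and ((p_gn hg hi (n_div hj' h2)).and ?_)
    have hc : PolyP D ctx (fun _ => cl (en v).1 = true) := p_const _
    have hm := PolyP.eq (n_mod hj' h2) h1
    refine (((hc.imp hm).and (hm.imp hc)).congr (fun a _ => ?_)).not
    exact ⟨fun h => ⟨h.1, h.2⟩, fun h => ⟨h.1, h.2⟩⟩
  · refine (PolyP.le h0 hi).and ((PolyP.le h0 (n_div hi' h2)).and ((PolyP.le h0 hj).and
      ((PolyP.le h0 (n_div hj' h2)).and ((p_gn hg (n_div hi' h2) (n_div hj' h2)).and ?_))))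
    exact (PolyP.eq (n_mod hi' h2) hz).and (PolyP.eq (n_mod hj' h2) h1)

end PolyBipAux

open PolyBipAux in
theorem poly_tabD {V : Type} {ht : V → ℕ} {n0 : ℕ} (cl : V → Bool)
    (en : Fin n0 ≃ Core ht) {α : Type} {D : α → Prop} {ctx : List (α → List Bool)} {g : α → Gr}
    {a z : α → ℕ} (hg : PolyC D ctx (fun c => (g c).encode)) (ha : PolyN D ctx a)
    (hz : PolyN D ctx z) :
    PolyP D ctx (fun c => tabP (ruleD cl en (g c) (a c)) (2 * (g c).n) (2 * (g c).n) (z c)) := by
  have hS : PolyN D ctx (fun c => 2 * (g c).n) := (PolyN.const 2).mul (p_n hg)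
  have hT : PolyC D ctx (fun c => tabL (ruleD cl en (g c) (a c)) (2 * (g c).n)
      (2 * (g c).n)) := by
    refine poly_tabL (R := fun c => ruleD cl en (g c) (a c)) hS ?_
    intro T x D' ctx' hD hc hT hx
    have h1 : PolyC D' ctx' (fun p => (g p.1.1).encode) :=
      move (fun p : (α × ℕ) × ℕ => p.1.1) hD hc hg
    have ha1 : PolyN D' ctx' (fun p => a p.1.1) :=
      move (fun p : (α × ℕ) × ℕ => p.1.1) hD hc ha
    refine (PolyP.eq hx ((PolyN.const 2).mul ha1)).or ?_
    refine p_ex (n := fun p : (α × ℕ) × ℕ => 2 * (g p.1.1).n) ((PolyN.const 2).mul (p_n h1)) ?_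
    exact (PolyP.ofB (PolyB.getD (cU hT) nL)).and
      (poly_stepD cl en (g := fun p : ((α × ℕ) × ℕ) × ℕ => g p.1.1.1) (cU h1) nL (nU hx))
  exact (PolyP.ofB (PolyB.getD hT hz)).congr (fun c _ => tabL_getD _ _ _ _)

open PolyBipAux in
theorem reduces_ret {V : Type} {H : V → V → Prop} {par : V → V} {ht : V → ℕ}
    {cl : V → Bool} (T : TreesL H par ht) (hcls : ∀ a b, H a b → cl a ≠ cl b)
    (hcore : ∃ v, ht v = 0) {n0 : ℕ} (en : Fin n0 ≃ Core ht) :
    ∃ f : Gr → Gr, PolyC (fun _ : Gr => True) [Gr.encode] (fun g => (f g).encode) ∧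
      ∀ g, Ret H ht en g ↔ RetCore H ht cl en (f g) := by
  classical
  have hedge : ∃ v w : Fin n0, cl (en v).1 ≠ cl (en w).1 := by
    obtain ⟨v, hv⟩ := hcore
    obtain ⟨b, c, -, -, -, hb, -, hvb, -⟩ := T.deg v hv
    refine ⟨en.symm ⟨v, hv⟩, en.symm ⟨b, hb⟩, ?_⟩
    rw [Equiv.apply_symm_apply, Equiv.apply_symm_apply]
    exact hcls v b hvb
  have hn0 : 0 < n0 := by
    obtain ⟨v, _⟩ := hedge
    exact lt_of_le_of_lt (Nat.zero_le _) v.2
  refine ⟨fun g => if n0 ≤ g.n ∧ BipOK cl en g then mkG (n0 + 2 * g.n) (relD cl en g)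
    else mkG 0 (fun _ _ => False), ?_, ?_⟩
  · have hg : PolyC (fun _ : Gr => True) [Gr.encode] (fun g : Gr => g.encode) :=
      PolyC.var (by simp)
    have hP : PolyP (fun _ : Gr => True) [Gr.encode] (fun g => n0 ≤ g.n ∧ BipOK cl en g) := by
      have h1 : PolyP (fun _ : Gr => True) [Gr.encode] (fun g => n0 ≤ g.n ∧ ∀ a < g.n,
          ¬ tabP (ruleD cl en g a) (2 * g.n) (2 * g.n) (2 * a + 1)) := by
        refine (PolyP.le (PolyN.const n0) (p_n hg)).and (p_fa (p_n hg) (PolyP.not ?_))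
        exact poly_tabD cl en (g := fun p : Gr × ℕ => p.1) (cU hg) nL
          (((PolyN.const 2).mul nL).add (PolyN.const 1))
      refine h1.congr (fun g _ => ?_)
      constructor
      · rintro ⟨ha, hb⟩
        exact ⟨ha, (bip_iff cl en hedge g ha).2 hb⟩
      · rintro ⟨ha, hb⟩
        exact ⟨ha, (bip_iff cl en hedge g ha).1 hb⟩
    have hA : PolyC (fun _ : Gr => True) [Gr.encode]
        (fun g => (mkG (n0 + 2 * g.n) (relD cl en g)).encode) := by
      refine poly_mkG (N := fun g : Gr => n0 + 2 * g.n) (R := fun g => relD cl en g)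
        ((PolyN.const n0).add ((PolyN.const 2).mul (p_n hg))) ?_
      intro i j hi hj
      exact poly_relD cl en (g := fun p : Gr × ℕ => p.1) (cU hg) hi hj
    have hB : PolyC (fun _ : Gr => True) [Gr.encode]
        (fun _ => (mkG 0 (fun _ _ => False)).encode) := PolyC.const _
    refine (poly_if hP hA hB).congr (fun g _ => ?_)
    by_cases h : n0 ≤ g.n ∧ BipOK cl en g
    · simp only [if_pos h]
    · simp only [if_neg h]
  · intro g
    rw [ret_iff_dc T hcls hcore en g]
    by_cases h : n0 ≤ g.n ∧ BipOK cl en g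
    · simp only [if_pos h]
      exact ⟨fun h' => h'.2.2, fun h' => ⟨h.1, h.2, h'⟩⟩
    · simp only [if_neg h]
      constructor
      · rintro ⟨ha, hb, -⟩
        exact absurd ⟨ha, hb⟩ h
      · rintro ⟨ha, -⟩
        have : n0 ≤ 0 := ha
        omega

end Pool.Agent.Lib.P2baL
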