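import Pool.Agent.Lib.P2baL.MkG

/-!
# Module P2baL.PolyLow: lower bounds in polynomial time

PROOFS. `lowK_iff`: (⇒) induction on k: LowK k q y → Low q y (base / step). (⇐) Low q y →
ht y ≤ M → LowK (M - ht y) q y by induction on Low: base: both alternatives of LowK contain
q = s y (cases on the number of rounds). step: ht (par z) = ht z - 1 (`T.ht_par`), so
M - ht (par z) = (M - ht z) + 1; q' < g.n by definition of adjN (GN g q' q). Then LowK is monotone in
k (LowK k q y → LowK (k + 1) q y, induction on k), and M - ht y ≤ M.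
`poly_lowK`: induction on k for all α, D, ctx, g, s, q (generalize; k + 1: `PolyP.or`, `p_ex`,
`p_anyF` over V, `p_const` for 0 < ht z ∧ par z = y, `p_gn`, the induction hypothesis in the extended
context `Dx D _`, `cx ctx`: move the hypotheses with `cU`, `nU`, `nL`). The induction statement must
quantify over α : Type and everything else.
-/

set_option autoImplicit false

namespace Pool.Agent.Lib.P2baL

open Pool.Agent.Lib.P2ba8ab Pool.Agent.Lib.P2baR Pool.Agent.Lib.PolyTime
open Pool.Agent.Lib.Pa7c826 Pool.Agent.Lib.P8e91ed.PT Pool.Agent.P99b9fe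

namespace PolyLowAux

theorem lowK_sound {V : Type} {par : V → V} {ht : V → ℕ} (g : Gr) (s : V → ℕ) (k : ℕ) :
    ∀ (q : ℕ) (y : V), LowK par ht g s k q y → Low par ht (GN g) s q y := by
  induction k with
  | zero =>
    intro q y h
    have h' : q = s y := h
    rw [h']
    exact Low.base y
  | succ k ih =>
    intro q y h
    rcases h with h | ⟨q', _, z, ⟨hz, rfl⟩, hg, hk⟩
    · rw [h]
      exact Low.base y
    · exact Low.step q q' z (ih q' z hk) hz hg

theorem lowK_succ {V : Type} {par : V → V} {ht : V → ℕ} (g : Gr) (s : V → ℕ) (k : ℕ) :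
    ∀ (q : ℕ) (y : V), LowK par ht g s k q y → LowK par ht g s (k + 1) q y := by
  induction k with
  | zero => exact fun q y h => Or.inl h
  | succ k ih =>
    intro q y h
    rcases h with h | ⟨q', hq', z, hz, hg, hk⟩
    · exact Or.inl h
    · exact Or.inr ⟨q', hq', z, hz, hg, ih q' z hk⟩

theorem lowK_mono {V : Type} {par : V → V} {ht : V → ℕ} (g : Gr) (s : V → ℕ) {k l : ℕ}
    (hkl : k ≤ l) {q : ℕ} {y : V} (h : LowK par ht g s k q y) : LowK par ht g s l q y := by
  induction l, hkl using Nat.le_induction with
  | base => exact h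
  | succ l _ ih => exact lowK_succ g s l q y ih

theorem gn_lt_left {g : Gr} {a b : ℕ} (h : GN g a b) : a < g.n := by
  have h' : adjN g a b = true := h
  simp only [adjN] at h'
  by_contra hc
  simp [hc] at h'

end PolyLowAux

open PolyLowAux in
theorem lowK_iff {V : Type} {H : V → V → Prop} {par : V → V} {ht : V → ℕ}
    (T : TreesL H par ht) {M : ℕ} (hM : ∀ x, ht x ≤ M) (g : Gr) (s : V → ℕ) (q : ℕ) (y : V) :
    LowK par ht g s M q y ↔ Low par ht (GN g) s q y := by
  constructor
  · exact lowK_sound g s M q y
  · intro h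
    have key : LowK par ht g s (M - ht y) q y := by
      induction h with
      | base y =>
        cases M - ht y with
        | zero => exact rfl
        | succ k => exact Or.inl rfl
      | step q q' z _ hz hg ih =>
        have h1 := T.ht_par z hz
        have h2 := hM z
        have e : M - ht (par z) = (M - ht z) + 1 := by omega
        rw [e]
        exact Or.inr ⟨q', gn_lt_left hg, z, ⟨hz, rfl⟩, hg, ih⟩
    exact lowK_mono g s (Nat.sub_le _ _) key

theorem poly_lowK {V : Type} [Finite V] {par : V → V} {ht : V → ℕ} (k : ℕ) (y : V)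
    {α : Type} {D : α → Prop} {ctx : List (α → List Bool)} {g : α → Gr} {s : α → V → ℕ}
    {q : α → ℕ} (hg : PolyC D ctx (fun a => (g a).encode)) (hs : ∀ y, PolyN D ctx (fun a => s a y))
    (hq : PolyN D ctx q) : PolyP D ctx (fun a => LowK par ht (g a) (s a) k (q a) y) := by
  induction k generalizing α y with
  | zero => exact PolyP.eq hq (hs y)
  | succ k ih =>
    refine (PolyP.eq hq (hs y)).or ?_
    refine p_ex (n := fun a => (g a).n) (p_n hg) ?_
    refine p_anyF (fun z => ?_)
    refine (p_const _).and ((p_gn (g := fun p : α × ℕ => g p.1) (cU hg) nL (nU hq)).and ?_)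
    exact ih z (g := fun p : α × ℕ => g p.1) (s := fun p : α × ℕ => s p.1)
      (q := fun p : α × ℕ => p.2) (cU hg) (fun y => nU (hs y)) nL

theorem poly_low {V : Type} [Finite V] {H : V → V → Prop} {par : V → V} {ht : V → ℕ}
    (T : TreesL H par ht) (y : V)
    {α : Type} {D : α → Prop} {ctx : List (α → List Bool)} {g : α → Gr} {s : α → V → ℕ}
    {q : α → ℕ} (hg : PolyC D ctx (fun a => (g a).encode)) (hs : ∀ y, PolyN D ctx (fun a => s a y))
    (hq : PolyN D ctx q) : PolyP D ctx (fun a => Low par ht (GN (g a)) (s a) (q a) y) := by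
  obtain ⟨M, hM⟩ : ∃ M, ∀ x, ht x ≤ M := by
    obtain ⟨M, hM⟩ := (Set.finite_range ht).bddAbove
    exact ⟨M, fun x => hM (Set.mem_range_self x)⟩
  exact (poly_lowK (par := par) (ht := ht) M y hg hs hq).congr
    (fun a _ => lowK_iff T hM (g a) (s a) (q a) y)

end Pool.Agent.Lib.P2baL
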