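import Pool.Agent.Lib.P2baL.Img
import Pool.Agent.Lib.P2baL.Fold

/-!
# Module P2baL.Sound: a surjective homomorphism gives a retraction (loops allowed)

As in `Lib/P2baR/SoundR.lean`. The homomorphism induces a permutation α of the core which preserves
the edges between different vertices; α⁻¹ preserves them too, and the loops by hypothesis.
-/

set_option autoImplicit false
set_option linter.unusedSectionVars false

namespace Pool.Agent.Lib.P2baL

open Pool.Agent.Lib.P2ba8ab Pool.Agent.Lib.P2baR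

namespace SoundAux

theorem walk_cl {V : Type} {H : V → V → Prop} {cl : V → Bool} (hc : ∀ a b, H a b → cl a ≠ cl b)
    {n : ℕ} {a b : V} (h : Walk H n a b) : cl a = cl b ↔ Even n := by
  induction n generalizing a with
  | zero =>
    obtain rfl : a = b := h
    simp
  | succ n ih =>
    obtain ⟨w, hw, hwb⟩ := h
    have h1 := ih hwb
    have h2 := hc a w hw
    rw [Nat.even_add_one, ← h1]
    revert h2
    cases cl a <;> cases cl b <;> cases cl w <;> simp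

theorem inv_hom {C : Type} [Finite C] (R : C → C → Prop) (α : C ≃ C)
    (h : ∀ v w, R v w → R (α v) (α w)) (v w : C) (hvw : R v w) : R (α.symm v) (α.symm w) := by
  let F : {p : C × C // R p.1 p.2} → {p : C × C // R p.1 p.2} :=
    fun p => ⟨(α p.1.1, α p.1.2), h _ _ p.2⟩
  have hF : Function.Injective F := by
    rintro ⟨⟨a, b⟩, hab⟩ ⟨⟨c, d⟩, hcd⟩ heq
    have h1 := congrArg Subtype.val heq
    have h2 := Prod.ext_iff.1 h1
    have h3 : a = c := α.injective h2.1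
    have h4 : b = d := α.injective h2.2
    subst h3 h4
    rfl
  obtain ⟨⟨⟨a, b⟩, hab⟩, heq⟩ := Finite.surjective_of_injective hF ⟨(v, w), hvw⟩
  have h1 := congrArg Subtype.val heq
  have h2 := Prod.ext_iff.1 h1
  have h3 : α a = v := h2.1
  have h4 : α b = w := h2.2
  rw [← h3, ← h4, Equiv.symm_apply_apply, Equiv.symm_apply_apply]
  exact hab

end SoundAux

open SoundAux in
theorem sound {V : Type} [Fintype V] {H : V → V → Prop} {par : V → V} {ht : V → ℕ}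
    {cl : V → Bool} {v0 : V} {len : Bool → ℕ} {e : ℕ} {P : Type} [Fintype P]
    (D : DatL H par ht cl v0 len e)
    (hloop : ∀ φ : Core ht ≃ Core ht,
      (∀ v w : Core ht, v ≠ w → H v.1 w.1 → H (φ v).1 (φ w).1) →
      ∀ v : Core ht, H v.1 v.1 → H (φ v).1 (φ v).1)
    (E : P → P → Prop) (hE : ∀ p, ¬ E p p)
    (clP : P → Bool) (ι : Core ht → P) (hι : Function.Injective ι) (hcl : ∀ v, clP (ι v) = cl v.1)
    (h : SurjHom (gr H par ht len e E clP ι (ι ⟨v0, D.v0c⟩)) H) :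
    ∃ r : P → V, (∀ p, ht (r p) = 0) ∧ (∀ p q, E p q → H (r p) (r q)) ∧ ∀ v, r (ι v) = v.1 := by
  classical
  obtain ⟨f, hf, hs⟩ := h
  have he : 0 < e := D.epos
  have hinj : ∀ v w : Core ht, f (Sum.inr (ι v, ⟨0, he⟩)) = f (Sum.inr (ι w, ⟨0, he⟩)) → v = w :=
    fun v w => inj_core D E clP ι hι hcl he f hf hs v w
  have hadj1 : ∀ v w : Core ht, v ≠ w → H v.1 w.1 →
      (gr H par ht len e E clP ι (ι ⟨v0, D.v0c⟩)).Adj (Sum.inr (ι v, ⟨0, he⟩))
        (Sum.inr (ι w, ⟨0, he⟩)) := by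
    intro v w hne hvw
    unfold gr
    rw [SimpleGraph.fromRel_adj]
    refine ⟨?_, Or.inl (Or.inl ⟨rfl, rfl, Or.inr ⟨v, w, rfl, rfl, hvw⟩⟩)⟩
    intro h1
    have h2 := (Prod.ext_iff.1 (Sum.inr.inj h1)).1
    exact hne (hι h2)
  have hadj2 : ∀ p q, E p q →
      (gr H par ht len e E clP ι (ι ⟨v0, D.v0c⟩)).Adj (Sum.inr (p, ⟨0, he⟩))
        (Sum.inr (q, ⟨0, he⟩)) := by
    intro p q hpq
    unfold gr
    rw [SimpleGraph.fromRel_adj]
    refine ⟨?_, Or.inl (Or.inl ⟨rfl, rfl, Or.inl hpq⟩)⟩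
    intro h1
    have h2 : p = q := (Prod.ext_iff.1 (Sum.inr.inj h1)).1
    subst h2
    exact hE _ hpq
  have hht : ∀ v : Core ht, ht (f (Sum.inr (ι v, ⟨0, he⟩))) = 0 := by
    by_contra hcon
    obtain ⟨v1, hv1⟩ := not_forall.1 hcon
    obtain ⟨v, -, hv⟩ := Finset.exists_max_image (Finset.univ : Finset (Core ht))
      (fun v => ht (f (Sum.inr (ι v, ⟨0, he⟩)))) ⟨v1, Finset.mem_univ _⟩
    have hpos : 0 < ht (f (Sum.inr (ι v, ⟨0, he⟩))) :=
      lt_of_lt_of_le (Nat.pos_of_ne_zero hv1) (hv v1 (Finset.mem_univ _))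
    obtain ⟨b, c, hbv, hcv, hbc, hb, hc, hvb, hvc⟩ := D.trees.deg v.1 v.2
    have hb1 : v ≠ ⟨b, hb⟩ := fun h => hbv (congrArg Subtype.val h).symm
    have hc1 : v ≠ ⟨c, hc⟩ := fun h => hcv (congrArg Subtype.val h).symm
    have h1 := hf _ _ (hadj1 v ⟨b, hb⟩ hb1 hvb)
    have h2 := hf _ _ (hadj1 v ⟨c, hc⟩ hc1 hvc)
    have h3 := nbrs D.trees hpos h1 h2 (hv ⟨b, hb⟩ (Finset.mem_univ _))
      (hv ⟨c, hc⟩ (Finset.mem_univ _)) (fun h => hb1 (hinj _ _ h.symm))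
      (fun h => hc1 (hinj _ _ h.symm))
    have h4 := hinj ⟨b, hb⟩ ⟨c, hc⟩ h3
    exact hbc (congrArg Subtype.val h4)
  let α0 : Core ht → Core ht := fun v => ⟨f (Sum.inr (ι v, ⟨0, he⟩)), hht v⟩
  have hα0 : Function.Injective α0 := fun v w hvw => hinj v w (congrArg Subtype.val hvw)
  let α : Core ht ≃ Core ht := Equiv.ofBijective α0 (Finite.injective_iff_bijective.1 hα0)
  have hαH : ∀ v w : Core ht, (v ≠ w ∧ H v.1 w.1) → (α v ≠ α w ∧ H (α v).1 (α w).1) :=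
    fun v w hvw => ⟨fun h => hvw.1 (α.injective h), hf _ _ (hadj1 v w hvw.1 hvw.2)⟩
  have hαs := inv_hom (fun v w : Core ht => v ≠ w ∧ H v.1 w.1) α hαH
  have hαl := hloop α.symm (fun v w hne hvw => (hαs v w ⟨hne, hvw⟩).2)
  have hαt : ∀ v w : Core ht, H v.1 w.1 → H (α.symm v).1 (α.symm w).1 := by
    intro v w hvw
    by_cases hne : v = w
    · subst hne
      exact hαl v hvw
    · exact (hαs v w ⟨hne, hvw⟩).2
  obtain ⟨ρ, hρ0, hρ1, hρ2, -⟩ := exists_fold D.trees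
  refine ⟨fun p => (α.symm ⟨ρ (f (Sum.inr (p, ⟨0, he⟩))), hρ0 _⟩).1, ?_, ?_, ?_⟩
  · intro p
    exact (α.symm _).2
  · intro p q hpq
    exact hαt _ _ (hρ2 _ _ (hf _ _ (hadj2 p q hpq)))
  · intro v
    have h1 : (⟨ρ (f (Sum.inr (ι v, ⟨0, he⟩))), hρ0 _⟩ : Core ht) = α v := by
      apply Subtype.ext
      exact hρ1 _ (hht v)
    show (α.symm ⟨ρ (f (Sum.inr (ι v, ⟨0, he⟩))), hρ0 _⟩).1 = v.1
    rw [h1, Equiv.symm_apply_apply]

open SoundAux in
/-- if the target is bipartite then the edges of the given graph join different classes -/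
theorem sound_cls {V : Type} {H : V → V → Prop} {par : V → V} {ht : V → ℕ}
    {cl : V → Bool} {v0 : V} {len : Bool → ℕ} {e : ℕ} {P : Type}
    (D : DatL H par ht cl v0 len e) (hcls : ∀ a b, H a b → cl a ≠ cl b)
    (E : P → P → Prop) (hE : ∀ p, ¬ E p p)
    (clP : P → Bool) (ι : Core ht → P) (hcl : ∀ v, clP (ι v) = cl v.1)
    (h : SurjHom (gr H par ht len e E clP ι (ι ⟨v0, D.v0c⟩)) H) :
    ∀ p q, E p q → clP p ≠ clP q := by
  classical
  obtain ⟨f, hf, -⟩ := h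
  have he : 0 < e := D.epos
  have hirr : ∀ v, ¬ H v v := fun v hv => hcls v v hv rfl
  have hadj2 : ∀ p q, E p q →
      (gr H par ht len e E clP ι (ι ⟨v0, D.v0c⟩)).Adj (Sum.inr (p, ⟨0, he⟩))
        (Sum.inr (q, ⟨0, he⟩)) := by
    intro p q hpq
    unfold gr
    rw [SimpleGraph.fromRel_adj]
    refine ⟨?_, Or.inl (Or.inl ⟨rfl, rfl, Or.inl hpq⟩)⟩
    intro h1
    have h2 : p = q := (Prod.ext_iff.1 (Sum.inr.inj h1)).1
    subst h2
    exact hE _ hpq
  have hwalk : ∀ p : P, Walk (gr H par ht len e E clP ι (ι ⟨v0, D.v0c⟩)).Adj (len (clP p))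
      (Sum.inr (p, ⟨0, he⟩)) (Sum.inr (ι ⟨v0, D.v0c⟩, ⟨0, he⟩)) := by
    intro p
    have h1 : ∀ i, ∀ hi : i < len (clP p),
        Walk (gr H par ht len e E clP ι (ι ⟨v0, D.v0c⟩)).Adj i
        (Sum.inr (p, ⟨0, he⟩)) (Sum.inr (p, ⟨i, lt_of_lt_of_le hi (D.lene _)⟩)) := by
      intro i
      induction i with
      | zero => intro hi; exact rfl
      | succ i ih =>
        intro hi
        refine (ih (by omega)).snoc ?_
        unfold gr
        rw [SimpleGraph.fromRel_adj]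
        refine ⟨?_, Or.inl (Or.inr (Or.inl ⟨rfl, rfl, hi⟩))⟩
        intro h1
        have h2 := (Prod.ext_iff.1 (Sum.inr.inj h1)).2
        have h3 := congrArg Fin.val h2
        simp at h3
    have hl := D.len1 (clP p)
    obtain ⟨m, hm⟩ : ∃ m, len (clP p) = m + 1 := ⟨len (clP p) - 1, by omega⟩
    have h2 := h1 m (by omega)
    have h3 : Walk (gr H par ht len e E clP ι (ι ⟨v0, D.v0c⟩)).Adj (m + 1)
        (Sum.inr (p, ⟨0, he⟩)) (Sum.inr (ι ⟨v0, D.v0c⟩, ⟨0, he⟩)) := by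
      refine h2.snoc ?_
      unfold gr
      rw [SimpleGraph.fromRel_adj]
      refine ⟨?_, Or.inl (Or.inr (Or.inr ⟨rfl, rfl, le_of_eq hm⟩))⟩
      intro h4
      have h5 := Prod.ext_iff.1 (Sum.inr.inj h4)
      have h6 : p = ι ⟨v0, D.v0c⟩ := h5.1
      have h7 : m = 0 := congrArg Fin.val h5.2
      have h8 := D.walk v0 D.v0c
      rw [← hcl ⟨v0, D.v0c⟩, ← h6, hm, h7] at h8
      obtain ⟨w, hw, hw'⟩ := h8
      have hw2 : w = v0 := hw'
      rw [hw2] at hw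
      exact hirr _ hw.2.2
    rw [hm]
    exact h3
  intro p q hpq heq
  have h1 := (hwalk p).map hf
  have h2 := (hwalk q).map hf
  have h3 := walk_cl hcls h1
  have h4 := walk_cl hcls h2
  rw [← heq, ← h3] at h4
  have h5 := hcls _ _ (hf _ _ (hadj2 p q hpq))
  revert h4 h5
  cases cl (f (Sum.inr (p, ⟨0, he⟩))) <;> cases cl (f (Sum.inr (q, ⟨0, he⟩))) <;>
    cases cl (f (Sum.inr (ι ⟨v0, D.v0c⟩, ⟨0, he⟩))) <;> simp

end Pool.Agent.Lib.P2baL
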